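import Pool.Agent.H21.CT.Cseq
import Pool.Agent.H92.BH.XCore3

/-!
[H21 CT CORE5]  Limits of translates of the primes with many cells with exactly one element, in groups.

Proof.  As `core4` (`Pool/Agent/H92/ST/Core4.lean`) from `cseq` in place of `c3step`.  `s` is the one of `cseq K`; `T n`, `μ n` from `cseq`.
Let `x g N = ∑ d, (if Un {a | (N + a).Prime} (H g d) then w d else 0)` and `W = ∑ d, w d ≥ 0`; so `0 ≤ x g N ≤ W`.  For `g ≤ n`:
`∑ μ n * x g ≥ W/20`, so (Markov) the `μ n`-measure of `{N | W/40 ≤ x g N}` is at least `1/40`: otherwise (`W > 0`)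
`∑ μ x ≤ W/40 + W * (measure) < W/20`; if `W = 0` all `N` belong to the set.  Events
`E g = {N | W/40 ≤ x g N ∧ ∀ a ≤ g, (∀ g' d, a ∉ H g' d) → ¬ (N + a).Prime}`, `lim_ultra` (with `T n`, `μ n` themselves, `1/40`), and
`B = {a | {N | (N + a).Prime} ∈ V}`; for `g` with `E g ∈ V` choose `N ∈ E g` which agrees with `B` on all `a` in the cells
`H g d`; then `Un {a | (N + a).Prime} (H g d) ↔ Un B (H g d)`.
-/

namespace Pool.Agent.H21.CT

open Finset Filter Pool.Agent.H21.MT Pool.Agent.H92.BH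

open Classical in
theorem core5 (K : ℕ) (hK : 0 < K) : ∃ s : ℕ → ℕ, (∀ g, 1 ≤ s g) ∧
    ∀ (ι : Type) [Fintype ι] [DecidableEq ι] (w : ι → ℝ) (H : ℕ → ι → Finset ℕ),
    Fintype.card ι = K → (∀ d, 0 ≤ w d) → (∀ g d, (H g d).card = s g) →
    (∀ g d g' d', (g, d) ≠ (g', d') → Disjoint (H g d) (H g' d')) →
    (∀ p : ℕ, p.Prime → ∃ a : ℕ, ∀ g d, ∀ h ∈ H g d, ¬ p ∣ a + h) →
    ∃ B : Set ℕ, (∀ a ∈ B, ∃ g d, a ∈ H g d) ∧
      (∀ F : Finset ℕ, {N : ℕ | ∀ a ∈ F, (N + a).Prime ↔ a ∈ B}.Infinite) ∧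
      {g : ℕ | (1 / 40 : ℝ) * ∑ d, w d ≤
        ∑ d, (if Un B (H g d) then w d else 0)}.Infinite := by
  classical
  obtain ⟨s, hs1, hs⟩ := cseq K hK
  refine ⟨s, hs1, ?_⟩
  intro ι _ _ w H hcardι hw0 hcard hdisj hadm
  choose T μ hT hTk hμ0 hμ1 hE using hs ι H hcardι hcard hdisj hadm
  set W : ℝ := ∑ d, w d with hW
  have hW0 : 0 ≤ W := Finset.sum_nonneg fun d _ => hw0 d
  set x : ℕ → ℕ → ℝ := fun g N =>
    ∑ d, (if Un {a | (N + a).Prime} (H g d) then w d else 0) with hx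
  have hxW : ∀ g N, x g N ≤ W := by
    intro g N
    refine Finset.sum_le_sum fun d _ => ?_
    split_ifs
    · exact le_rfl
    · exact hw0 d
  -- the mean of `x g`
  have hmean : ∀ n g, g ≤ n → W * (1 / 20) ≤ ∑ N ∈ T n, μ n N * x g N := by
    intro n g hg
    have h1 : ∑ N ∈ T n, μ n N * x g N = ∑ d,
        w d * ∑ N ∈ (T n).filter (fun N => Un {a | (N + a).Prime} (H g d)), μ n N := by
      have h2 : ∀ N ∈ T n, μ n N * x g N = ∑ d,
          (if Un {a | (N + a).Prime} (H g d) then w d * μ n N else 0) := by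
        intro N _
        simp only [hx]
        rw [Finset.mul_sum]
        refine Finset.sum_congr rfl fun d _ => ?_
        split_ifs
        · exact mul_comm _ _
        · exact mul_zero _
      rw [Finset.sum_congr rfl h2, Finset.sum_comm]
      refine Finset.sum_congr rfl fun d _ => ?_
      rw [← Finset.sum_filter, Finset.mul_sum]
    rw [h1, hW, Finset.sum_mul]
    exact Finset.sum_le_sum fun d _ => mul_le_mul_of_nonneg_left (hE n g hg d) (hw0 d)
  -- Markov
  have hmark : ∀ n g, g ≤ n → (1 / 40 : ℝ) ≤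
      ∑ N ∈ (T n).filter (fun N => (1 / 40 : ℝ) * W ≤ x g N), μ n N := by
    intro n g hg
    rcases hW0.eq_or_lt with hWz | hWpos
    · have h1 : (T n).filter (fun N => (1 / 40 : ℝ) * W ≤ x g N) = T n := by
        rw [Finset.filter_eq_self]
        intro N _
        rw [← hWz, mul_zero]
        refine Finset.sum_nonneg fun d _ => ?_
        split_ifs
        · exact hw0 d
        · exact le_rfl
      rw [h1, hμ1 n]
      norm_num
    by_contra hcon
    push Not at hcon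
    have h1 := hmean n g hg
    have h2 : ∑ N ∈ T n, μ n N * x g N ≤
        ∑ N ∈ T n, ((1 / 40 : ℝ) * W * μ n N +
          (if (1 / 40 : ℝ) * W ≤ x g N then μ n N else 0) * W) := by
      refine Finset.sum_le_sum (fun N _ => ?_)
      have h3 := hμ0 n N
      split_ifs with h4
      · have h5 : μ n N * x g N ≤ μ n N * W := mul_le_mul_of_nonneg_left (hxW g N) h3
        have h6 : 0 ≤ (1 / 40 : ℝ) * W * μ n N := by positivity
        linarith
      · push Not at h4
        have h5 : μ n N * x g N ≤ μ n N * ((1 / 40 : ℝ) * W) :=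
          mul_le_mul_of_nonneg_left h4.le h3
        linarith
    rw [Finset.sum_add_distrib, ← Finset.mul_sum, hμ1 n, ← Finset.sum_mul,
      ← Finset.sum_filter] at h2
    have h7 : (∑ N ∈ (T n).filter (fun N => (1 / 40 : ℝ) * W ≤ x g N), μ n N) * W <
        (1 / 40 : ℝ) * W := mul_lt_mul_of_pos_right hcon hWpos
    linarith
  obtain ⟨E, hEdef⟩ : ∃ E : ℕ → Set ℕ, ∀ g N, N ∈ E g ↔ ((1 / 40 : ℝ) * W ≤ x g N ∧
      ∀ a ≤ g, (∀ g' d, a ∉ H g' d) → ¬ (N + a).Prime) :=
    ⟨fun g => {N : ℕ | (1 / 40 : ℝ) * W ≤ x g N ∧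
      ∀ a ≤ g, (∀ g' d, a ∉ H g' d) → ¬ (N + a).Prime}, fun _ _ => Iff.rfl⟩
  obtain ⟨V, hV, hinf⟩ := lim_ultra T μ hT hμ0 hμ1 E (1 / 40) (by positivity) (by
    intro n g hg
    refine (hmark n g hg).trans (le_of_eq ?_)
    refine Finset.sum_congr ?_ (fun _ _ => rfl)
    ext N
    rw [mem_filter, mem_filter, hEdef]
    constructor
    · rintro ⟨h1, h2⟩
      exact ⟨h1, h2, fun a ha haH => hTk n N h1 a (ha.trans hg) haH⟩
    · rintro ⟨h1, h2, _⟩
      exact ⟨h1, h2⟩)
  set B : Set ℕ := {a | {N : ℕ | (N + a).Prime} ∈ V} with hB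
  have hVinf : ∀ X : Set ℕ, X ∈ V → X.Infinite := by
    intro X hX hfin
    have h1 : Xᶜ ∈ (V : Filter ℕ) := hV (by
      rw [Filter.mem_cofinite, compl_compl]
      exact hfin)
    exact (Ultrafilter.compl_mem_iff_notMem.1 h1) hX
  set G : ℕ → Set ℕ := fun a => {N : ℕ | (N + a).Prime ↔ a ∈ B} with hG
  have hGV : ∀ a, G a ∈ (V : Filter ℕ) := by
    intro a
    by_cases hab : a ∈ B
    · have h1 : {N : ℕ | (N + a).Prime} ∈ (V : Filter ℕ) := hab
      filter_upwards [h1] with N hN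
      exact ⟨fun _ => hab, fun _ => hN⟩
    · have h1 : {N : ℕ | (N + a).Prime}ᶜ ∈ (V : Filter ℕ) :=
        Ultrafilter.compl_mem_iff_notMem.2 hab
      filter_upwards [h1] with N hN
      exact ⟨fun h => absurd h hN, fun h => absurd h hab⟩
  refine ⟨B, ?_, ?_, ?_⟩
  · intro a ha
    by_contra hcon
    push Not at hcon
    obtain ⟨j, hj, haj⟩ := hinf.exists_gt a
    have h1 : E j ∩ {N : ℕ | (N + a).Prime} ∈ (V : Filter ℕ) := Filter.inter_mem hj ha
    obtain ⟨N, hN1, hN2⟩ := Filter.nonempty_of_mem h1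
    exact ((hEdef j N).1 hN1).2 a haj.le hcon hN2
  · intro F
    apply hVinf
    have h1 : (⋂ a ∈ F, G a) ∈ (V : Filter ℕ) := (Filter.biInter_finset_mem F).2 (fun a _ => hGV a)
    refine Filter.mem_of_superset h1 ?_
    intro N hN a ha
    rw [Set.mem_iInter₂] at hN
    exact hN a ha
  · refine hinf.mono ?_
    intro g hg
    have hg : E g ∈ V := hg
    rw [Set.mem_ofPred_eq]
    have hcap : E g ∩ ⋂ a ∈ (Finset.univ : Finset ι).biUnion (fun d => H g d), G a ∈
        (V : Filter ℕ) :=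
      Filter.inter_mem hg ((Filter.biInter_finset_mem _).2 (fun a _ => hGV a))
    obtain ⟨N, hN1, hN2⟩ := Filter.nonempty_of_mem hcap
    rw [Set.mem_iInter₂] at hN2
    obtain ⟨hN1, _⟩ := (hEdef g N).1 hN1
    refine hN1.trans (le_of_eq ?_)
    simp only [hx]
    refine Finset.sum_congr rfl fun d _ => ?_
    have hiff : ∀ a ∈ H g d, ((N + a).Prime ↔ a ∈ B) := fun a ha =>
      hN2 a (Finset.mem_biUnion.mpr ⟨d, Finset.mem_univ d, ha⟩)
    have hUn : Un {a | (N + a).Prime} (H g d) ↔ Un B (H g d) := by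
      constructor
      · rintro ⟨a, ha, ha', hu⟩
        exact ⟨a, ha, (hiff a ha).1 ha', fun y hy hy' => hu y hy ((hiff y hy).2 hy')⟩
      · rintro ⟨a, ha, ha', hu⟩
        exact ⟨a, ha, (hiff a ha).2 ha', fun y hy hy' => hu y hy ((hiff y hy).1 hy')⟩
    by_cases hB' : Un B (H g d)
    · rw [if_pos hB', if_pos (hUn.2 hB')]
    · rw [if_neg hB', if_neg (fun h => hB' (hUn.1 h))]

end Pool.Agent.H21.CT
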