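import Pool.Agent.H21.CT.Defs
import Pool.Agent.H21.SH.Sv
import Pool.Agent.H21.MT.SieveR

/-!
[H21 CT CSEQ]  The sharp sieve on an infinite sequence of groups of cells: every cell contains exactly one prime with
probability at least `1/20`.

Proof.  As `cells` (`Pool/Agent/H21/CG/Cell.lean`) and `blk_quarter` (`Pool/Agent/H21/QT/Bq.lean`), with parameters depending
on the group, and everything in `ℕ` (no shift by `B`); the frame is that of `c3step` (`Pool/Agent/H92/BH/XCore3.lean`).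
PARAMETERS.  `e = 1/10000`.  For every `g` let `τ_g = e/(2^(g+1) K 2^l (l+1))`, `p_g = psv e τ_g l = e τ_g (l+2)^2/(4 bl l)`, where
`1 ≤ bl l ≤ 3/2`; so `2^l p_g ≥ e^2 l/(2^(g+1) 6 K) → ∞` and `p_g → 0` as `l → ∞`.  Choose `l = l_g` with `2^l p_g ≥ 1/8` and `p_g ≤ 1/1000`, and
`s_g = ⌈1/(8 p_g)⌉ ≤ 2^l`; then `1/8 ≤ s_g p_g ≤ 1/8 + 1/1000`.
SIEVE.  Given `H` and `n`, use `sieve2 e` with the finite index set `I` of the triples `(g, d, x)`, `g ≤ n`, `x ∈ H g d`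
(not empty), `h (g, d, x) = x` (injective by disjointness), `tau = τ_g`, `l = l_g`: `2^l τ_g ≤ 1/2`,
`∑ (l+1) τ = ∑_{g ≤ n} K s_g (l_g + 1) τ_g ≤ ∑_{g ≤ n} e/2^(g+1) ≤ e`.  `Q`, `b₀` are given by `kill` (`Pool/Agent/H21/MT/SieveR.lean`) for
the finite set of the `a ≤ n` in no `H g d` (killed) and the image of `h` (kept); `N0 = max n Q` as in `c3step`.
MOMENTS.  `X N = #{x ∈ H g d | N + x prime}`: `E X ≥ (1-50e) s_g p_g`; by the bound for pairs (`S = {x'}`)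
`E X (X-1) ≤ s_g (s_g - 1) 4 (1+50e)^2 p_g^2`.  For a natural number `X`: `1_{X = 1} ≥ X - X (X-1)`.  So the probability that exactly
one `N + x` is prime is at least `(1-50e)/8 - 4 (1+50e)^2 (1/8 + 1/1000)^2 ≥ 0.124 - 0.065 ≥ 1/20`.
-/

namespace Pool.Agent.H21.CT

open Finset Pool.Agent.H21.SH Pool.Agent.H21.MT

private theorem cseq_bl (l : ℕ) : 1 ≤ bl l ∧ bl l ≤ 3 / 2 := by
  unfold bl
  have h1 : (1 / 2 : ℝ) ^ (l + 1) ≤ (1 / 2 : ℝ) ^ 1 :=
    pow_le_pow_of_le_one (by norm_num) (by norm_num) (by omega)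
  have h2 : (0 : ℝ) < (1 / 2 : ℝ) ^ (l + 1) := by positivity
  constructor <;> linarith

/-- parameters -/
private theorem cseq_par (k : ℕ) (hk : 1 ≤ k) (e η : ℝ) (he : 0 < e) (he1 : e ≤ 1 / 100)
    (hη : 0 < η) : ∃ l₀ : ℕ, ∀ l : ℕ, l₀ ≤ l → ∃ τ : ℝ, 0 < τ ∧ (2 : ℝ) ^ l * τ ≤ 1 / 2 ∧
      k * 2 ^ l * (((l : ℝ) + 1) * τ) = e ∧ 0 < psv e τ l ∧
      1 + 50 * e ≤ e * (2 ^ l * psv e τ l) ∧ k * ((1 + 50 * e) * psv e τ l) ≤ η := by
  have hk0 : (0 : ℝ) < k := by exact_mod_cast hk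
  have hk1 : (1 : ℝ) ≤ k := by exact_mod_cast hk
  obtain ⟨l1, hl1⟩ := exists_nat_ge (12 * (k : ℝ) / e ^ 3)
  have hlim : Filter.Tendsto (fun n : ℕ => (n : ℝ) ^ 1 / (2 : ℝ) ^ n) Filter.atTop (nhds 0) :=
    tendsto_pow_const_div_const_pow_of_one_lt 1 (by norm_num)
  have h1 := hlim.eventually_lt_const (show (0 : ℝ) < η / 5 by positivity)
  obtain ⟨l2, hl2⟩ := Filter.eventually_atTop.1 h1
  refine ⟨l1 + l2 + 1, fun l hl => ⟨e / (k * 2 ^ l * ((l : ℝ) + 1)), by positivity, ?_, ?_, ?_, ?_, ?_⟩⟩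
  · have hl0 : (0 : ℝ) ≤ l := Nat.cast_nonneg l
    have h2 : (2 : ℝ) ^ l * (e / (k * 2 ^ l * ((l : ℝ) + 1))) = e / (k * ((l : ℝ) + 1)) := by
      field_simp
    rw [h2, div_le_iff₀ (by positivity)]
    nlinarith [mul_nonneg hk0.le hl0]
  · field_simp
  · obtain ⟨hb1, hb2⟩ := cseq_bl l
    unfold psv
    have : 0 < bl l := by linarith
    positivity
  · obtain ⟨hb1, hb2⟩ := cseq_bl l
    have hb0 : 0 < bl l := by linarith
    have hll : (l1 : ℝ) ≤ l := by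
      have : l1 ≤ l := by omega
      exact_mod_cast this
    have hl0 : (0 : ℝ) ≤ l := Nat.cast_nonneg l
    have h2 : e * (2 ^ l * psv e (e / (k * 2 ^ l * ((l : ℝ) + 1))) l) =
        e ^ 3 * ((l : ℝ) + 2) ^ 2 / (4 * bl l * k * ((l : ℝ) + 1)) := by
      unfold psv
      field_simp
    rw [h2, le_div_iff₀ (by positivity)]
    have h3 : 12 * (k : ℝ) ≤ l * e ^ 3 := by
      rw [div_le_iff₀ (by positivity)] at hl1
      refine hl1.trans ?_
      exact mul_le_mul_of_nonneg_right hll (by positivity)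
    calc (1 + 50 * e) * (4 * bl l * k * ((l : ℝ) + 1)) ≤
        2 * (4 * (3 / 2) * k * ((l : ℝ) + 1)) := by
          have : 1 + 50 * e ≤ 2 := by linarith
          gcongr
      _ = 12 * k * ((l : ℝ) + 1) := by ring
      _ ≤ l * e ^ 3 * ((l : ℝ) + 1) := by gcongr
      _ = e ^ 3 * (l * ((l : ℝ) + 1)) := by ring
      _ ≤ e ^ 3 * ((l : ℝ) + 2) ^ 2 := by
          have : (l : ℝ) * ((l : ℝ) + 1) ≤ ((l : ℝ) + 2) ^ 2 := by nlinarith
          gcongr
  · obtain ⟨hb1, hb2⟩ := cseq_bl l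
    have hb0 : 0 < bl l := by linarith
    have hl1' : (1 : ℝ) ≤ l := by
      have : 1 ≤ l := by omega
      exact_mod_cast this
    have hl0 : (0 : ℝ) ≤ l := Nat.cast_nonneg l
    have h4 := hl2 l (by omega)
    rw [pow_one] at h4
    have h2 : k * ((1 + 50 * e) * psv e (e / (k * 2 ^ l * ((l : ℝ) + 1))) l) =
        (1 + 50 * e) * e ^ 2 * ((l : ℝ) + 2) ^ 2 / (4 * bl l * 2 ^ l * ((l : ℝ) + 1)) := by
      unfold psv
      field_simp
    rw [h2]
    have h5 : (1 + 50 * e) * e ^ 2 * ((l : ℝ) + 2) ^ 2 / (4 * bl l * 2 ^ l * ((l : ℝ) + 1)) ≤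
        5 * ((l : ℝ) / 2 ^ l) := by
      rw [← mul_div_assoc, div_le_div_iff₀ (by positivity) (by positivity)]
      have h6 : ((l : ℝ) + 2) ^ 2 ≤ 5 * l * ((l : ℝ) + 1) := by nlinarith
      have h7 : (1 + 50 * e) * e ^ 2 ≤ 4 := by nlinarith [sq_nonneg e]
      calc (1 + 50 * e) * e ^ 2 * ((l : ℝ) + 2) ^ 2 * 2 ^ l ≤
          4 * (5 * l * ((l : ℝ) + 1)) * 2 ^ l := by gcongr
        _ = 5 * l * (4 * 1 * 2 ^ l * ((l : ℝ) + 1)) := by ring
        _ ≤ 5 * l * (4 * bl l * 2 ^ l * ((l : ℝ) + 1)) := by gcongr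
    linarith

open Classical in
/-- second moment method in one cell -/
private theorem cseq_blk {α : Type} (T : Finset ℕ) (μ : ℕ → ℝ) (hμ : ∀ N, 0 ≤ μ N)
    (W : Finset α) (f : α → ℕ → Prop) (p : ℝ) (hp : 0 < p) (hs1 : 1 / 8 ≤ (W.card : ℝ) * p)
    (hs2 : (W.card : ℝ) * p ≤ 126 / 1000)
    (hlow : ∀ x ∈ W, 199 / 200 * p ≤ ∑ N ∈ T.filter (fun N => f x N), μ N)
    (hup2 : ∀ x ∈ W, ∀ x' ∈ W, x ≠ x' →
      ∑ N ∈ T.filter (fun N => f x N ∧ f x' N), μ N ≤ 4 * (201 / 200) ^ 2 * p ^ 2) :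
    1 / 20 ≤ ∑ N ∈ T.filter (fun N => ∃ x ∈ W, f x N ∧ ∀ x' ∈ W, f x' N → x' = x), μ N := by
  obtain ⟨g, hg⟩ : ∃ g : α → ℕ → ℝ, ∀ x N, g x N = if f x N then 1 else 0 := ⟨_, fun _ _ => rfl⟩
  obtain ⟨Y, hY⟩ : ∃ Y : ℕ → ℝ, ∀ N, Y N = ∑ x ∈ W, g x N := ⟨_, fun _ => rfl⟩
  -- pointwise
  have h1 : ∀ N ∈ T, μ N * (2 * Y N - Y N ^ 2) ≤
      (if ∃ x ∈ W, f x N ∧ ∀ x' ∈ W, f x' N → x' = x then μ N else 0) := by
    intro N _
    have hc : Y N = ((W.filter (fun x => f x N)).card : ℝ) := by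
      rw [hY, Finset.card_filter]
      push_cast
      exact Finset.sum_congr rfl fun x _ => hg x N
    obtain ⟨c, hcc⟩ : ∃ c : ℕ, c = (W.filter (fun x => f x N)).card := ⟨_, rfl⟩
    rw [← hcc] at hc
    rw [hc]
    by_cases h1 : c = 1
    · have h2 : ∃ x ∈ W, f x N ∧ ∀ x' ∈ W, f x' N → x' = x := by
        rw [h1] at hcc
        obtain ⟨x, hx⟩ := Finset.card_eq_one.1 hcc.symm
        have h3 : x ∈ W.filter (fun x => f x N) := by
          rw [hx]
          exact Finset.mem_singleton_self x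
        rw [Finset.mem_filter] at h3
        refine ⟨x, h3.1, h3.2, ?_⟩
        intro x' hx' hf'
        have h4 : x' ∈ W.filter (fun x => f x N) := Finset.mem_filter.2 ⟨hx', hf'⟩
        rw [hx] at h4
        exact Finset.mem_singleton.1 h4
      rw [if_pos h2, h1]
      norm_num
    · have h3 : 2 * (c : ℝ) - (c : ℝ) ^ 2 ≤ 0 := by
        rcases Nat.lt_or_ge c 1 with h4 | h4
        · have h5 : c = 0 := by omega
          rw [h5]
          norm_num
        · have h5 : (2 : ℝ) ≤ c := by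
            have : 2 ≤ c := by omega
            exact_mod_cast this
          nlinarith
      have h4 : μ N * (2 * (c : ℝ) - (c : ℝ) ^ 2) ≤ 0 :=
        mul_nonpos_of_nonneg_of_nonpos (hμ N) h3
      refine h4.trans ?_
      split_ifs
      · exact hμ N
      · exact le_rfl
  -- first moment
  have hE : ∀ x, ∑ N ∈ T, μ N * g x N = ∑ N ∈ T.filter (fun N => f x N), μ N := by
    intro x
    rw [Finset.sum_filter]
    refine Finset.sum_congr rfl fun N _ => ?_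
    rw [hg]
    split_ifs
    · rw [mul_one]
    · rw [mul_zero]
  have m1 : ∑ N ∈ T, μ N * Y N = ∑ x ∈ W, ∑ N ∈ T.filter (fun N => f x N), μ N := by
    have h2 : ∀ N ∈ T, μ N * Y N = ∑ x ∈ W, μ N * g x N := by
      intro N _
      rw [hY, Finset.mul_sum]
    rw [Finset.sum_congr rfl h2, Finset.sum_comm]
    exact Finset.sum_congr rfl fun x _ => hE x
  have m1' : 199 / 200 * ((W.card : ℝ) * p) ≤ ∑ N ∈ T, μ N * Y N := by
    rw [m1]
    have h2 : ∑ _x ∈ W, 199 / 200 * p ≤ ∑ x ∈ W, ∑ N ∈ T.filter (fun N => f x N), μ N :=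
      Finset.sum_le_sum hlow
    rw [Finset.sum_const, nsmul_eq_mul] at h2
    linarith
  -- second moment
  have m2 : ∑ N ∈ T, μ N * Y N ^ 2 ≤
      4 * (201 / 200) ^ 2 * ((W.card : ℝ) * p) ^ 2 + ∑ N ∈ T, μ N * Y N := by
    have h3 : ∑ N ∈ T, μ N * Y N ^ 2 =
        ∑ x ∈ W, ∑ x' ∈ W, ∑ N ∈ T, μ N * (g x N * g x' N) := by
      have h4 : ∀ N ∈ T, μ N * Y N ^ 2 = ∑ x ∈ W, ∑ x' ∈ W, μ N * (g x N * g x' N) := by
        intro N _
        rw [hY, sq, Finset.sum_mul_sum, Finset.mul_sum]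
        refine Finset.sum_congr rfl fun x _ => ?_
        rw [Finset.mul_sum]
      rw [Finset.sum_congr rfl h4, Finset.sum_comm]
      refine Finset.sum_congr rfl fun x _ => ?_
      rw [Finset.sum_comm]
    rw [h3]
    have h5 : ∀ x ∈ W, ∀ x' ∈ W, ∑ N ∈ T, μ N * (g x N * g x' N) ≤
        4 * (201 / 200) ^ 2 * p ^ 2 +
          (if x = x' then ∑ N ∈ T.filter (fun N => f x N), μ N else 0) := by
      intro x hx x' hx'
      by_cases hxx : x = x'
      · subst hxx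
        rw [if_pos rfl, ← hE x]
        have h6 : ∑ N ∈ T, μ N * (g x N * g x N) = ∑ N ∈ T, μ N * g x N := by
          refine Finset.sum_congr rfl fun N _ => ?_
          rw [hg]
          split_ifs <;> simp
        rw [h6]
        have h8 : 0 ≤ 4 * (201 / 200) ^ 2 * p ^ 2 := by positivity
        linarith
      · rw [if_neg hxx, add_zero]
        refine le_trans (le_of_eq ?_) (hup2 x hx x' hx' hxx)
        rw [Finset.sum_filter]
        refine Finset.sum_congr rfl fun N _ => ?_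
        rw [hg, hg]
        by_cases c1 : f x N <;> by_cases c2 : f x' N <;> simp [c1, c2]
    refine (Finset.sum_le_sum fun x hx => Finset.sum_le_sum fun x' hx' => h5 x hx x' hx').trans ?_
    have h6 : ∀ x ∈ W, ∑ x' ∈ W, (4 * (201 / 200) ^ 2 * p ^ 2 +
        (if x = x' then ∑ N ∈ T.filter (fun N => f x N), μ N else 0)) =
        (W.card : ℝ) * (4 * (201 / 200) ^ 2 * p ^ 2) +
          ∑ N ∈ T.filter (fun N => f x N), μ N := by
      intro x hx
      rw [Finset.sum_add_distrib, Finset.sum_const, nsmul_eq_mul, Finset.sum_ite_eq, if_pos hx]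
    rw [Finset.sum_congr rfl h6, Finset.sum_add_distrib, ← m1, Finset.sum_const, nsmul_eq_mul]
    apply le_of_eq
    ring
  rw [Finset.sum_filter]
  refine le_trans ?_ (Finset.sum_le_sum h1)
  have h4 : ∑ N ∈ T, μ N * (2 * Y N - Y N ^ 2) =
      2 * ∑ N ∈ T, μ N * Y N - ∑ N ∈ T, μ N * Y N ^ 2 := by
    rw [Finset.mul_sum, ← Finset.sum_sub_distrib]
    refine Finset.sum_congr rfl fun N _ => ?_
    ring
  rw [h4]
  have h5 : ((W.card : ℝ) * p) ^ 2 ≤ (126 / 1000) ^ 2 :=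
    pow_le_pow_left₀ (by linarith) hs2 2
  nlinarith


/-- parameters for all groups -/
private theorem cseq_all (K : ℕ) (hK : 0 < K) : ∃ (l s : ℕ → ℕ) (τ : ℕ → ℝ), ∀ g, 0 < τ g ∧
    (2 : ℝ) ^ l g * τ g ≤ 1 / 2 ∧
    (K : ℝ) * 2 ^ l g * (((l g : ℝ) + 1) * τ g) = (1 / 10000) / 2 ^ (g + 1) ∧
    0 < psv (1 / 10000) (τ g) (l g) ∧ 1 ≤ s g ∧
    1 / 8 ≤ (s g : ℝ) * psv (1 / 10000) (τ g) (l g) ∧
    (s g : ℝ) * psv (1 / 10000) (τ g) (l g) ≤ 126 / 1000 ∧ (s g : ℝ) ≤ 2 ^ l g := by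
  have hg : ∀ g : ℕ, ∃ (l s : ℕ) (τ : ℝ), 0 < τ ∧
      (2 : ℝ) ^ l * τ ≤ 1 / 2 ∧
      (K : ℝ) * 2 ^ l * (((l : ℝ) + 1) * τ) = (1 / 10000) / 2 ^ (g + 1) ∧
      0 < psv (1 / 10000) τ l ∧ 1 ≤ s ∧
      1 / 8 ≤ (s : ℝ) * psv (1 / 10000) τ l ∧
      (s : ℝ) * psv (1 / 10000) τ l ≤ 126 / 1000 ∧ (s : ℝ) ≤ 2 ^ l := by
    intro g
    have hm : 1 ≤ K * 2 ^ (g + 1) := Nat.one_le_iff_ne_zero.2 (by positivity)
    obtain ⟨l, hl⟩ := cseq_par (K * 2 ^ (g + 1)) hm (1 / 10000) (1 / 1000) (by norm_num)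
      (by norm_num) (by norm_num)
    obtain ⟨τ, hτ0, hτ1, hτ2, hp0, hpL, hpk⟩ := hl l le_rfl
    obtain ⟨p, hpdef⟩ : ∃ p, p = psv (1 / 10000) τ l := ⟨_, rfl⟩
    rw [← hpdef] at hp0 hpL hpk
    have hm1 : (1 : ℝ) ≤ ((K * 2 ^ (g + 1) : ℕ) : ℝ) := by exact_mod_cast hm
    have hp1 : p ≤ 1 / 1000 := by
      have h1 : 1 * ((1 + 50 * (1 / 10000 : ℝ)) * p) ≤
          ((K * 2 ^ (g + 1) : ℕ) : ℝ) * ((1 + 50 * (1 / 10000)) * p) :=
        mul_le_mul_of_nonneg_right hm1 (by positivity)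
      linarith
    have hpl : 1 / (8 * p) ≤ (2 : ℝ) ^ l := by
      rw [div_le_iff₀ (by positivity)]
      nlinarith
    refine ⟨l, ⌈1 / (8 * p)⌉₊, τ, hτ0, hτ1, ?_, ?_, ?_, ?_, ?_, ?_⟩
    · rw [eq_div_iff (by positivity), ← hτ2]
      push_cast
      ring
    · rw [← hpdef]
      exact hp0
    · exact Nat.one_le_iff_ne_zero.2 (Nat.ceil_pos.2 (by positivity)).ne'
    · rw [← hpdef]
      have h1 : 1 / (8 * p) ≤ (⌈1 / (8 * p)⌉₊ : ℝ) := Nat.le_ceil _
      have h2 : 1 / (8 * p) * p ≤ (⌈1 / (8 * p)⌉₊ : ℝ) * p :=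
        mul_le_mul_of_nonneg_right h1 hp0.le
      have h3 : 1 / (8 * p) * p = 1 / 8 := by
        field_simp
      linarith
    · rw [← hpdef]
      have h1 : (⌈1 / (8 * p)⌉₊ : ℝ) ≤ 1 / (8 * p) + 1 :=
        (Nat.ceil_lt_add_one (by positivity)).le
      have h2 : (⌈1 / (8 * p)⌉₊ : ℝ) * p ≤ (1 / (8 * p) + 1) * p :=
        mul_le_mul_of_nonneg_right h1 hp0.le
      have h3 : (1 / (8 * p) + 1) * p = 1 / 8 + p := by
        field_simp
      linarith
    · have h1 : ⌈1 / (8 * p)⌉₊ ≤ 2 ^ l := by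
        apply Nat.ceil_le.2
        push_cast
        exact hpl
      exact_mod_cast h1
  choose l s τ h using hg
  exact ⟨l, s, τ, h⟩

private theorem cseq_flt (T : Finset ℕ) (μ : ℕ → ℝ) (p q : ℕ → Prop) (i1 : DecidablePred p)
    (i2 : DecidablePred q) (h : ∀ N, p N ↔ q N) :
    ∑ N ∈ T.filter p, μ N = ∑ N ∈ T.filter q, μ N :=
  Finset.sum_congr (filter_congr fun N _ => h N) (fun _ _ => rfl)

private theorem cseq_geom (n : ℕ) : ∑ j ∈ range n, (1 / 10000 : ℝ) / 2 ^ (j + 1) ≤ 1 / 10000 := by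
  have h : ∑ j ∈ range n, (1 / 10000 : ℝ) / 2 ^ (j + 1) = 1 / 10000 - (1 / 10000) / 2 ^ n := by
    induction n with
    | zero => simp
    | succ n ih =>
      rw [sum_range_succ, ih, pow_succ]
      field_simp
      ring
  rw [h]
  have : (0 : ℝ) < (1 / 10000) / 2 ^ n := by positivity
  linarith

open Classical in
theorem cseq (K : ℕ) (hK : 0 < K) : ∃ s : ℕ → ℕ, (∀ g, 1 ≤ s g) ∧
    ∀ (ι : Type) [Fintype ι] [DecidableEq ι] (H : ℕ → ι → Finset ℕ), Fintype.card ι = K →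
    (∀ g d, (H g d).card = s g) → (∀ g d g' d', (g, d) ≠ (g', d') → Disjoint (H g d) (H g' d')) →
    (∀ p : ℕ, p.Prime → ∃ a : ℕ, ∀ g d, ∀ h ∈ H g d, ¬ p ∣ a + h) → ∀ n : ℕ,
    ∃ (T : Finset ℕ) (μ : ℕ → ℝ), (∀ N ∈ T, n < N) ∧
      (∀ N ∈ T, ∀ a ≤ n, (∀ g d, a ∉ H g d) → ¬ (N + a).Prime) ∧ (∀ N, 0 ≤ μ N) ∧
      ∑ N ∈ T, μ N = 1 ∧
      ∀ g ≤ n, ∀ d, 1 / 20 ≤ ∑ N ∈ T.filter (fun N => Un {a | (N + a).Prime} (H g d)), μ N := by
  obtain ⟨l, s, τ, hall⟩ := cseq_all K hK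
  refine ⟨s, fun g => (hall g).2.2.2.2.1, ?_⟩
  intro ι _ _ H hcard hcH hdisj hadmH n
  have hιne : Nonempty ι := by
    rw [← Fintype.card_pos_iff, hcard]
    exact hK
  let I : Type := Σ g : Fin (n + 1), Σ d : ι, {x // x ∈ H g.val d}
  letI : Fintype I := inferInstanceAs (Fintype (Σ g : Fin (n + 1), Σ d : ι, {x // x ∈ H g.val d}))
  have hne : Nonempty I := by
    obtain ⟨d⟩ := hιne
    have h0 : (H 0 d).Nonempty := by
      rw [← card_pos, hcH]
      exact (hall 0).2.2.2.2.1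
    obtain ⟨a, ha⟩ := h0
    exact ⟨⟨⟨0, by omega⟩, d, ⟨a, ha⟩⟩⟩
  let h : I → ℕ := fun i => i.2.2.val
  have hinj : Function.Injective h := by
    rintro ⟨g, d, a, ha⟩ ⟨g', d', a', ha'⟩ hab
    have h1 : a = a' := hab
    subst h1
    by_cases h4 : (g.val, d) = (g'.val, d')
    · have h5 := congrArg Prod.fst h4
      have h6 := congrArg Prod.snd h4
      simp only at h5 h6
      have h7 : g = g' := Fin.ext h5
      subst h7
      subst h6
      rfl
    · exact absurd ha' (Finset.disjoint_left.1 (hdisj _ _ _ _ h4) ha)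
  obtain ⟨Q, b₀, hQ, hcopQ, hkill⟩ := kill
    ((Finset.range (n + 1)).filter (fun a => ∀ g d, a ∉ H g d)) (univ.image h) (by
      rw [Finset.disjoint_left]
      intro a ha ha'
      obtain ⟨i, _, rfl⟩ := Finset.mem_image.1 ha'
      exact (Finset.mem_filter.1 ha).2 i.1.val i.2.1 i.2.2.2)
  obtain ⟨T, μ, hT, hμ, hsum, hlow, hup⟩ := sieve2 (1 / 10000) (by norm_num) (by norm_num)
    h hinj (by
      intro p hp
      obtain ⟨a, ha⟩ := hadmH p hp
      exact ⟨a, fun i => ha i.1.val i.2.1 i.2.2.val i.2.2.2⟩) (fun i => τ i.1.val)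
    (fun i => l i.1.val) (fun i => (hall i.1.val).1) (fun i => (hall i.1.val).2.1) (by
      have e1 : ∑ i : I, ((l i.1.val : ℝ) + 1) * τ i.1.val =
          ∑ g : Fin (n + 1), (K : ℝ) * s g.val * (((l g.val : ℝ) + 1) * τ g.val) := by
        have e2 : ∑ i : I, ((l i.1.val : ℝ) + 1) * τ i.1.val =
            ∑ g : Fin (n + 1), ∑ x : (Σ d : ι, {x // x ∈ H g.val d}),
              ((l g.val : ℝ) + 1) * τ g.val := by
          exact Fintype.sum_sigma (fun i : (Σ g : Fin (n + 1), Σ d : ι, {x // x ∈ H g.val d}) =>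
            ((l i.1.val : ℝ) + 1) * τ i.1.val)
        rw [e2]
        refine Finset.sum_congr rfl fun g _ => ?_
        rw [Finset.sum_const, Finset.card_univ, Fintype.card_sigma]
        have e3 : ∀ d : ι, Fintype.card {x // x ∈ H g.val d} = s g.val := by
          intro d
          rw [Fintype.card_coe, hcH]
        rw [Finset.sum_congr rfl (fun d _ => e3 d), Finset.sum_const, Finset.card_univ, hcard,
          smul_eq_mul, nsmul_eq_mul]
        push_cast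
        ring
      rw [e1]
      have e4 : ∑ g : Fin (n + 1), (K : ℝ) * s g.val * (((l g.val : ℝ) + 1) * τ g.val) ≤
          ∑ g : Fin (n + 1), (1 / 10000 : ℝ) / 2 ^ (g.val + 1) := by
        refine Finset.sum_le_sum fun g _ => ?_
        have h1 := hall g.val
        rw [← h1.2.2.1]
        have h2 : (0 : ℝ) ≤ ((l g.val : ℝ) + 1) * τ g.val := by
          have := h1.1
          positivity
        refine mul_le_mul_of_nonneg_right ?_ h2
        exact mul_le_mul_of_nonneg_left h1.2.2.2.2.2.2.2 (Nat.cast_nonneg K)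
      refine e4.trans ?_
      rw [Fin.sum_univ_eq_sum_range (fun j => (1 / 10000 : ℝ) / 2 ^ (j + 1))]
      exact cseq_geom (n + 1)) Q b₀ hQ
    (fun i => hcopQ _ (mem_image_of_mem h (mem_univ i))) (max n Q)
  have hup2 : ∀ i i' : I, i ≠ i' → i.1 = i'.1 →
      ∑ N ∈ T.filter (fun N => (N + h i).Prime ∧ (N + h i').Prime),
      μ N ≤ 4 * (201 / 200) ^ 2 * psv (1 / 10000) (τ i.1.val) (l i.1.val) ^ 2 := by
    intro i i' hii hg
    have hm' : i ∉ ({i'} : Finset I) := by simpa using hii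
    have h1 := hup i {i'} hm'
    rw [prod_insert hm', prod_singleton, card_singleton, ← hg] at h1
    have h2 : (1 + 50 * (1 / 10000 : ℝ)) ^ (1 + 1) * (4 * ((1 : ℕ) : ℝ)) ^ 1 *
        (psv (1 / 10000) (τ i.1.val) (l i.1.val) * psv (1 / 10000) (τ i.1.val) (l i.1.val)) =
        4 * (201 / 200) ^ 2 * psv (1 / 10000) (τ i.1.val) (l i.1.val) ^ 2 := by
      push_cast
      ring
    rw [h2] at h1
    refine le_trans (le_of_eq ?_) h1
    congr 1
    apply filter_congr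
    intro N _
    simp
  refine ⟨T, μ, fun N hN => ?_, fun N hN a ha hH => ?_, hμ, hsum, fun g hg d => ?_⟩
  · have h1 := (hT N hN).1
    have h2 : n ≤ max n Q := le_max_left _ _
    omega
  · have h1 := (hT N hN).1
    have h2 : Q ≤ max n Q := le_max_right _ _
    exact hkill N (by omega) (hT N hN).2 a (Finset.mem_filter.2
      ⟨Finset.mem_range.2 (by omega), hH⟩)
  · obtain ⟨hτ0, _, _, hp0, _, hs1, hs2, _⟩ := hall g
    have h1 := cseq_blk T μ hμ (H g d) (fun x N => (N + x).Prime)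
      (psv (1 / 10000) (τ g) (l g)) hp0
      (by rw [hcH]; exact hs1) (by rw [hcH]; exact hs2) (by
        intro x hx
        have h2 := hlow ⟨⟨g, by omega⟩, d, ⟨x, hx⟩⟩
        have h3 : (1 - 50 * (1 / 10000 : ℝ)) * psv (1 / 10000) (τ g) (l g) =
          199 / 200 * psv (1 / 10000) (τ g) (l g) := by ring
        simp only at h2
        rw [h3] at h2
        refine h2.trans (le_of_eq ?_)
        exact cseq_flt T μ _ _ _ _ (fun N => Iff.rfl)) (by
        intro x hx x' hx' hxx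
        refine le_trans (le_of_eq ?_) (hup2 ⟨⟨g, by omega⟩, d, ⟨x, hx⟩⟩
          ⟨⟨g, by omega⟩, d, ⟨x', hx'⟩⟩ (by
          intro h3
          have h4 : h ⟨⟨g, by omega⟩, d, ⟨x, hx⟩⟩ = h ⟨⟨g, by omega⟩, d, ⟨x', hx'⟩⟩ :=
            congrArg h h3
          exact hxx h4) rfl)
        exact cseq_flt T μ _ _ _ _ (fun N => Iff.rfl))
    refine h1.trans (le_of_eq ?_)
    exact cseq_flt T μ _ _ _ _ (fun N => Iff.rfl)

end Pool.Agent.H21.CT
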