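import Pool.Agent.H92.ST.Defs
import Pool.Agent.H21.CG.Tree

/-!
MP_8923e7_nt, project CT (consecutive triples): the exact form of the tuples theorem in Bohr neighbourhoods with
one pair of adjacent gaps.  Definitions.

`Tr`, `Lg`, `Spl`, `ShE` (`Pool/Agent/H92/ST/Defs.lean`) are used as they are; the even gaps of `z` are replaced by
the gaps with numbers in a set `G`, in which at most one pair of adjacent gaps occurs.
-/

namespace Pool.Agent.H21.CT

open Filter Pool.Agent.H92.BH Pool.Agent.H92.ST Pool.Agent.H21.CG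

/-- the union of the gaps of the tuple `z` with numbers in `G`; gap number `t` lies between `z t` and
`z (t + 1)` -/
def gapG {m : ℕ} (G : Set ℕ) (z : Fin m → ℕ) : Set ℕ :=
  {x | ∃ a b : Fin m, (a : ℕ) ∈ G ∧ (b : ℕ) = a + 1 ∧ z a < x ∧ x < z b}

/-- the pattern of `ω` on `z` is `τ`, and `ω` does not meet `E z` -/
def PtnE {m : ℕ} (E : (Fin m → ℕ) → Set ℕ) (ω : Set ℕ) (τ : Set (Fin m)) (z : Fin m → ℕ) : Prop :=
  (∀ a, z a ∈ ω ↔ a ∈ τ) ∧ ∀ x ∈ E z, x ∉ ω

/-- the only adjacent gaps in `G` are those on the two sides of the element number `j` -/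
def Iso1 {m : ℕ} (G : Set ℕ) (j : Fin m) : Prop :=
  ∀ a : Fin m, a ≠ j → ∀ b : ℕ, b + 1 = (a : ℕ) → b ∈ G → (a : ℕ) ∉ G

/-- exactly one element of `V` lies in `ω` -/
def Un (ω : Set ℕ) (V : Finset ℕ) : Prop := ∃ x ∈ V, x ∈ ω ∧ ∀ y ∈ V, y ∈ ω → y = x

/-- within the hull of `X` all elements of `ω` lie in `C` -/
def Hull (ω : Set ℕ) (X C : Finset ℕ) : Prop :=
  ∀ x ∈ ω, (∃ y ∈ X, y ≤ x) → (∃ y ∈ X, x ≤ y) → x ∈ C

/-- `C ⊆ X`, and `X` has elements below and above all elements of `C` -/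
def Bnd (X C : Finset ℕ) : Prop :=
  C ⊆ X ∧ (∃ x ∈ X, ∀ y ∈ C, x < y) ∧ ∃ x ∈ X, ∀ y ∈ C, y < x

/-- the pattern `τ` of `ω` is realised by a tuple of the relation with entries in `X` -/
def Rz {m : ℕ} (R : (Fin m → ℕ) → Prop) (G : Set ℕ) (X : Finset ℕ) (ω : Set ℕ) (τ : Set (Fin m)) :
    Prop :=
  ∃ z : Fin m → ℕ, (∀ a, z a ∈ X) ∧ R z ∧ PtnE (gapG G) ω τ z

/-- the weights of the cells of the lower tree -/
noncomputable def wt (k : ℕ) : ∀ n, Ix k n → ℝ
  | 0 => fun d => d.elim
  | n + 1 => fun o => Option.elim (α := Fin k × Ix k n) o (1 / k) (fun p => wt k n p.2 / k)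

/-- the leaves of the upper tree -/
def Lf (k : ℕ) : ℕ → Type
  | 0 => Unit
  | n + 1 => Fin k × Lf k n

instance instFintypeLf (k : ℕ) : ∀ n, Fintype (Lf k n)
  | 0 => inferInstanceAs (Fintype Unit)
  | n + 1 =>
    haveI := instFintypeLf k n
    inferInstanceAs (Fintype (Fin k × Lf k n))

instance instDecLf (k : ℕ) : ∀ n, DecidableEq (Lf k n)
  | 0 => inferInstanceAs (DecidableEq Unit)
  | n + 1 =>
    haveI := instDecLf k n
    inferInstanceAs (DecidableEq (Fin k × Lf k n))

theorem card_Lf (k n : ℕ) : Fintype.card (Lf k n) = k ^ n := by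
  induction n with
  | zero => rfl
  | succ n ih =>
    have h : Fintype.card (Lf k (n + 1)) = Fintype.card (Fin k × Lf k n) := rfl
    rw [h, Fintype.card_prod, Fintype.card_fin, ih, pow_succ, mul_comm]

theorem wt_none (k n : ℕ) : wt k (n + 1) (none : Option (Fin k × Ix k n)) = 1 / k := rfl

theorem wt_some (k n : ℕ) (b : Fin k) (d : Ix k n) :
    wt k (n + 1) (some (b, d) : Option (Fin k × Ix k n)) = wt k n d / k := rfl

theorem wt_nonneg (k : ℕ) : ∀ n (d : Ix k n), 0 ≤ wt k n d := by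
  intro n
  induction n with
  | zero => exact fun d => d.elim
  | succ n ih =>
    intro o
    have ho : o = (none : Option (Fin k × Ix k n)) ∨
        ∃ b d, o = (some (b, d) : Option (Fin k × Ix k n)) := by
      rcases o with _ | ⟨b, d⟩
      · exact Or.inl rfl
      · exact Or.inr ⟨b, d, rfl⟩
    rcases ho with rfl | ⟨b, d, rfl⟩
    · rw [wt_none]
      positivity
    · rw [wt_some]
      have := ih d
      positivity

theorem wt_sum (k : ℕ) (hk : 1 ≤ k) (n : ℕ) : ∑ d, wt k n d = n / k := by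
  have hkR : (0 : ℝ) < k := by exact_mod_cast hk
  induction n with
  | zero =>
    rw [Nat.cast_zero, zero_div]
    exact Finset.sum_eq_zero fun d _ => d.elim
  | succ n ih =>
    rw [sum_Ix]
    simp only [wt_none, wt_some]
    rw [← Finset.sum_div, ih, Finset.sum_const, Finset.card_univ, Fintype.card_fin, nsmul_eq_mul]
    push_cast
    field_simp
    ring

end Pool.Agent.H21.CT
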