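import Pool.Agent.H21.CT.Node
import Pool.Agent.H92.ST.TrA

/-!
[H21 CT EXB]  Extraction of the cells of the lower tree, and the potential inequality.

Proof.  Induction on `n`, for all `X`.  `n = 0`: `Ix k 0` is empty (as in `pot_exists`, `Pool/Agent/H21/CG/Tree.lean`), `X` is not empty
(`s + 2 ≤ X.card`), both sides are sums over the empty type resp. `≥ 0`.
Step: `Tr R (s + 2) (n + 1) X` gives children `Y a`, `a : Fin (k + 1)`.  The child `Y j` has at least `s + 2` elements (`Tr_anti` to
depth `0`); let `U` be a subset with `s` elements of `Y j` without its minimum and maximum (as `d = 0` in `extract`,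
`Pool/Agent/H92/ST/Ext.lean`).  For `b : Fin k` let `V b` be the cells of the child `Y (j.succAbove b)` by induction.
`V none = U`, `V (some (b, d)) = V b d`; `C j = U`, `C (j.succAbove b) = ⋃ d, V b d` (`Fin.succAboveCases` or
`Fin.eq_self_or_eq_succAbove`).  Disjointness and `Bnd X (⋃ V)` as in `extract` (bound elements: those of the first and the last
child).  Potential: let `ω`, `τ ∋ j` with `¬ Rz R G X ω τ`.  For each child `¬ Rz R G (Y a) ω τ` (the same `z`) and `Hull ω (Y a) (C a)` (as
`hωa` in `extract`: the hull of `Y a` meets no other child, by the order).  If `Un ω U`, then some `a ∈ τ`, `a ≠ j`, has no element of `ω` in `C a`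
(otherwise `node_pick` gives `Rz`), so the sum is at most `1/k + (1/k) (k - 1) = 1`; otherwise it is at most `(1/k) #{b | ω meets C b}`,
at most `1` and `0` if `ω` meets no cell.  Use `sum_Ix` (`Pool/Agent/H21/CG/Tree.lean`), `wt_none`, `wt_some`.
-/

namespace Pool.Agent.H21.CT

open Finset Filter Pool.Agent.H92.BH Pool.Agent.H92.ST Pool.Agent.H21.CG

open Classical in
theorem ext_bot {k : ℕ} (hk : 1 ≤ k) {G : Set ℕ} {j : Fin (k + 1)} (hG : Iso1 G j)
    {R : (Fin (k + 1) → ℕ) → Prop} {s : ℕ} (hs : 1 ≤ s) (n : ℕ) (X : Finset ℕ)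
    (h : Tr R (s + 2) n X) :
    ∃ V : Ix k n → Finset ℕ, (∀ d, (V d).card = s) ∧ (∀ d d', d ≠ d' → Disjoint (V d) (V d')) ∧
      Bnd X (univ.biUnion V) ∧ ∀ ω : Set ℕ, Hull ω X (univ.biUnion V) → ∀ τ : Set (Fin (k + 1)),
        j ∈ τ → ¬ Rz R G X ω τ → ∑ d, (if Un ω (V d) then wt k n d else 0) ≤
          if ∃ d, ∃ x ∈ V d, x ∈ ω then 1 else 0 := by
  induction n generalizing X with
  | zero =>
    have hX : s + 2 ≤ X.card := h
    have hne : X.Nonempty := Finset.card_pos.mp (by omega)
    obtain ⟨x, hx⟩ := hne
    have hU : (univ : Finset (Ix k 0)).biUnion (fun d : Ix k 0 => (d.elim : Finset ℕ)) = ∅ := by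
      ext y
      constructor
      · intro hy
        obtain ⟨d, -, -⟩ := Finset.mem_biUnion.1 hy
        exact d.elim
      · intro hy
        exact absurd hy (Finset.notMem_empty y)
    refine ⟨fun d => d.elim, fun d => d.elim, fun d => d.elim, ?_, ?_⟩
    · rw [hU]
      exact ⟨Finset.empty_subset _, ⟨x, hx, fun y hy => absurd hy (Finset.notMem_empty y)⟩,
        ⟨x, hx, fun y hy => absurd hy (Finset.notMem_empty y)⟩⟩
    · intro ω _ τ _ _
      have h1 : ∑ d : Ix k 0, (if Un ω ((fun d : Ix k 0 => (d.elim : Finset ℕ)) d) then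
          wt k 0 d else 0) = 0 := Finset.sum_eq_zero fun d _ => d.elim
      rw [h1]
      split_ifs
      · exact zero_le_one
      · exact le_rfl
  | succ n ih =>
    obtain ⟨Y, hYX, hYT, hYo, hYR⟩ := h
    have hkR : (0 : ℝ) < k := by exact_mod_cast hk
    have hord : ∀ a b x, x ∈ Y a → x ∈ Y b → a = b := by
      intro a b x hxa hxb
      rcases lt_trichotomy a b with h | h | h
      · exact absurd (hYo a b h x hxa x hxb) (lt_irrefl x)
      · exact h
      · exact absurd (hYo b a h x hxb x hxa) (lt_irrefl x)
    -- the light cell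
    have hYj : s + 2 ≤ (Y j).card :=
      Tr_anti (R := R) (s := s + 2) (Nat.succ_le_succ (Nat.zero_le k)) (Nat.zero_le n) (hYT j)
    have hne : (Y j).Nonempty := Finset.card_pos.mp (by omega)
    have hc : s ≤ (((Y j).erase ((Y j).min' hne)).erase ((Y j).max' hne)).card := by
      have h1 := Finset.pred_card_le_card_erase (s := Y j) (a := (Y j).min' hne)
      have h2 := Finset.pred_card_le_card_erase (s := (Y j).erase ((Y j).min' hne))
        (a := (Y j).max' hne)
      omega
    obtain ⟨U, hU, hUc⟩ := Finset.exists_subset_card_eq hc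
    have hUY : U ⊆ Y j := fun y hy => Finset.mem_of_mem_erase (Finset.mem_of_mem_erase (hU hy))
    have hUB : Bnd (Y j) U := by
      refine ⟨hUY, ⟨(Y j).min' hne, (Y j).min'_mem hne, fun y hy => ?_⟩,
        ⟨(Y j).max' hne, (Y j).max'_mem hne, fun y hy => ?_⟩⟩
      · have h1 := Finset.ne_of_mem_erase (Finset.mem_of_mem_erase (hU hy))
        exact lt_of_le_of_ne ((Y j).min'_le y (hUY hy)) (fun h => h1 h.symm)
      · have h1 := Finset.ne_of_mem_erase (hU hy)
        exact lt_of_le_of_ne ((Y j).le_max' y (hUY hy)) h1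
    -- the other cells
    choose W hW1 hW2 hW3 hW4 using fun b : Fin k => ih (Y (j.succAbove b)) (hYT (j.succAbove b))
    set C : Fin (k + 1) → Finset ℕ :=
      Fin.insertNth (α := fun _ => Finset ℕ) j U (fun b => univ.biUnion (W b)) with hCdef
    have hCj : C j = U := Fin.insertNth_apply_same _ _ _
    have hCb : ∀ b, C (j.succAbove b) = univ.biUnion (W b) :=
      fun b => Fin.insertNth_apply_succAbove _ _ _ _
    have hcase : ∀ a : Fin (k + 1), a = j ∨ ∃ b, a = j.succAbove b := by
      intro a
      rcases Fin.eq_self_or_eq_succAbove j a with h1 | ⟨b, hb⟩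
      · exact Or.inl h1
      · exact Or.inr ⟨b, hb⟩
    have hCB : ∀ a, Bnd (Y a) (C a) := by
      intro a
      rcases hcase a with h1 | ⟨b, h1⟩
      · rw [h1, hCj]
        exact hUB
      · rw [h1, hCb]
        exact hW3 b
    let V : Ix k (n + 1) → Finset ℕ := fun o =>
      Option.elim (α := Fin k × Ix k n) o U (fun p => W p.1 p.2)
    have hV0 : V (none : Option (Fin k × Ix k n)) = U := rfl
    have hV1 : ∀ b d, V (some (b, d) : Option (Fin k × Ix k n)) = W b d := fun _ _ => rfl
    have hcases : ∀ o : Ix k (n + 1), o = (none : Option (Fin k × Ix k n)) ∨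
        ∃ b d, o = (some (b, d) : Option (Fin k × Ix k n)) := by
      intro o
      rcases o with _ | ⟨b, d⟩
      · exact Or.inl rfl
      · exact Or.inr ⟨b, d, rfl⟩
    have hWY : ∀ b d, W b d ⊆ Y (j.succAbove b) := fun b d x hx =>
      (hW3 b).1 (Finset.mem_biUnion.2 ⟨d, Finset.mem_univ d, hx⟩)
    have hUn : (univ : Finset (Ix k (n + 1))).biUnion V = univ.biUnion C := by
      ext x
      rw [Finset.mem_biUnion, Finset.mem_biUnion]
      constructor
      · rintro ⟨o, -, ho⟩
        rcases hcases o with h1 | ⟨b, d, h1⟩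
        · rw [h1, hV0] at ho
          exact ⟨j, Finset.mem_univ j, by rw [hCj]; exact ho⟩
        · rw [h1, hV1] at ho
          refine ⟨j.succAbove b, Finset.mem_univ _, ?_⟩
          rw [hCb]
          exact Finset.mem_biUnion.2 ⟨d, Finset.mem_univ d, ho⟩
      · rintro ⟨a, -, ha⟩
        rcases hcase a with h1 | ⟨b, h1⟩
        · rw [h1, hCj] at ha
          exact ⟨(none : Option (Fin k × Ix k n)), Finset.mem_univ _, by rw [hV0]; exact ha⟩
        · rw [h1, hCb] at ha
          obtain ⟨d, -, hd⟩ := Finset.mem_biUnion.1 ha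
          exact ⟨(some (b, d) : Option (Fin k × Ix k n)), Finset.mem_univ _,
            by rw [hV1]; exact hd⟩
    have hCX : (univ : Finset (Fin (k + 1))).biUnion C ⊆ X := by
      intro x hx
      obtain ⟨a, -, ha⟩ := Finset.mem_biUnion.1 hx
      exact hYX a ((hCB a).1 ha)
    refine ⟨V, ?_, ?_, ?_, ?_⟩
    · intro o
      rcases hcases o with h1 | ⟨b, d, h1⟩
      · rw [h1, hV0, hUc]
      · rw [h1, hV1, hW1 b d]
    · intro o o' hoo
      rw [Finset.disjoint_left]
      intro x hx hx'
      rcases hcases o with h1 | ⟨b, d, h1⟩ <;> rcases hcases o' with h2 | ⟨b', d', h2⟩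
      · exact hoo (h1.trans h2.symm)
      · rw [h1, hV0] at hx
        rw [h2, hV1] at hx'
        exact (Fin.succAbove_ne j b') (hord _ _ x (hUY hx) (hWY b' d' hx')).symm
      · rw [h1, hV1] at hx
        rw [h2, hV0] at hx'
        exact (Fin.succAbove_ne j b) (hord _ _ x (hWY b d hx) (hUY hx'))
      · rw [h1, hV1] at hx
        rw [h2, hV1] at hx'
        have h3 := hord _ _ x (hWY b d hx) (hWY b' d' hx')
        have h4 : b = b' := Fin.succAbove_right_injective h3
        subst h4
        by_cases h5 : d = d'
        · subst h5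
          exact hoo (h1.trans h2.symm)
        · exact (Finset.disjoint_left.1 (hW2 b d d' h5) hx) hx'
    · rw [hUn]
      refine ⟨hCX, ?_, ?_⟩
      · obtain ⟨x, hx, hx'⟩ := (hCB 0).2.1
        refine ⟨x, hYX _ hx, fun y hy => ?_⟩
        obtain ⟨a, -, ha⟩ := Finset.mem_biUnion.1 hy
        by_cases h0 : a = 0
        · subst h0
          exact hx' y ha
        · exact hYo 0 a (Fin.pos_iff_ne_zero.2 h0) x hx y ((hCB a).1 ha)
      · obtain ⟨x, hx, hx'⟩ := (hCB (Fin.last k)).2.2
        refine ⟨x, hYX _ hx, fun y hy => ?_⟩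
        obtain ⟨a, -, ha⟩ := Finset.mem_biUnion.1 hy
        by_cases h0 : a = Fin.last k
        · subst h0
          exact hx' y ha
        · exact hYo a (Fin.last k) (Fin.lt_last_iff_ne_last.2 h0) y ((hCB a).1 ha) x hx
    · intro ω hω τ hj hnR
      rw [hUn] at hω
      have hωa : ∀ a, Hull ω (Y a) (C a) := by
        rintro a x hx ⟨y, hy, hyx⟩ ⟨y', hy', hxy'⟩
        have h1 := hω x hx ⟨y, hYX a hy, hyx⟩ ⟨y', hYX a hy', hxy'⟩
        obtain ⟨b, -, hb⟩ := Finset.mem_biUnion.1 h1
        have hxb : x ∈ Y b := (hCB b).1 hb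
        rcases lt_trichotomy a b with h | h | h
        · exact absurd (hYo a b h y' hy' x hxb) (not_lt.mpr hxy')
        · subst h
          exact hb
        · exact absurd (hYo b a h x hxb y hy) (not_lt.mpr hyx)
      have hRa : ∀ a, ¬ Rz R G (Y a) ω τ := by
        rintro a ⟨z, h1, h2⟩
        exact hnR ⟨z, fun b => hYX a (h1 b), h2⟩
      set q : Fin k → ℝ := fun b => if ∃ d, ∃ x ∈ W b d, x ∈ ω then 1 else 0 with hq
      have hP : ∀ b, ∑ d, (if Un ω (W b d) then wt k n d else 0) ≤ q b := by
        intro b
        refine hW4 b ω ?_ τ hj (hRa _)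
        rw [← hCb b]
        exact hωa _
      have hq1 : ∀ b, q b ≤ 1 := by
        intro b
        simp only [hq]
        split_ifs
        · exact le_rfl
        · exact zero_le_one
      have hsum : ∑ o, (if Un ω (V o) then wt k (n + 1) o else 0) ≤
          (if Un ω U then 1 / (k : ℝ) else 0) + (∑ b, q b) / k := by
        rw [sum_Ix, hV0, wt_none]
        refine add_le_add le_rfl ?_
        rw [Finset.sum_div]
        refine Finset.sum_le_sum fun b _ => ?_
        refine le_trans (le_of_eq ?_) (div_le_div_of_nonneg_right (hP b) hkR.le)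
        rw [Finset.sum_div]
        refine Finset.sum_congr rfl fun d _ => ?_
        rw [hV1, wt_some]
        split_ifs
        · rfl
        · rw [zero_div]
      refine hsum.trans ?_
      by_cases hmet : ∃ o, ∃ x ∈ V o, x ∈ ω
      · rw [if_pos hmet]
        by_cases hUω : Un ω U
        · rw [if_pos hUω]
          have h0 : ∃ b0, q b0 = 0 := by
            by_contra hcon
            push Not at hcon
            apply hnR
            refine node_pick hG hYo hYR hCB hYX hω τ ?_ ?_ ?_
            · intro a _
              rcases hcase a with h1 | ⟨b, h1⟩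
              · rw [h1, hCj]
                obtain ⟨x, hx, hx', -⟩ := hUω
                exact ⟨x, hx, hx'⟩
              · have h2 := hcon b
                have h3 : ∃ d, ∃ x ∈ W b d, x ∈ ω := by
                  by_contra h4
                  apply h2
                  simp only [hq]
                  rw [if_neg h4]
                obtain ⟨d, x, hx, hx'⟩ := h3
                rw [h1, hCb]
                exact ⟨x, Finset.mem_biUnion.2 ⟨d, Finset.mem_univ d, hx⟩, hx'⟩
            · intro _
              rw [hCj]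
              exact hUω
            · intro h
              exact absurd hj h
          obtain ⟨b0, hb0⟩ := h0
          have h1 : ∑ b, q b ≤ (k : ℝ) - 1 := by
            rw [← Finset.add_sum_erase _ _ (Finset.mem_univ b0), hb0, zero_add]
            have h2 := Finset.sum_le_card_nsmul (univ.erase b0) q 1 (fun b _ => hq1 b)
            rw [Finset.card_erase_of_mem (Finset.mem_univ b0), Finset.card_univ,
              Fintype.card_fin, nsmul_eq_mul, mul_one, Nat.cast_sub hk, Nat.cast_one] at h2
            exact h2
          have h2 : (∑ b, q b) / (k : ℝ) ≤ ((k : ℝ) - 1) / k :=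
            div_le_div_of_nonneg_right h1 hkR.le
          have h3 : 1 / (k : ℝ) + ((k : ℝ) - 1) / k = 1 := by
            field_simp
            ring
          linarith
        · rw [if_neg hUω, zero_add, div_le_one hkR]
          have h2 := Finset.sum_le_card_nsmul univ q 1 (fun b _ => hq1 b)
          rw [Finset.card_univ, Fintype.card_fin, nsmul_eq_mul, mul_one] at h2
          exact h2
      · rw [if_neg hmet]
        have h1 : ¬ Un ω U := by
          rintro ⟨x, hx, hx', -⟩
          exact hmet ⟨(none : Option (Fin k × Ix k n)), x, by rw [hV0]; exact hx, hx'⟩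
        have h2 : ∑ b, q b = 0 := by
          refine Finset.sum_eq_zero fun b _ => ?_
          simp only [hq]
          rw [if_neg]
          rintro ⟨d, x, hx, hx'⟩
          exact hmet ⟨(some (b, d) : Option (Fin k × Ix k n)), x, by rw [hV1]; exact hx, hx'⟩
        rw [if_neg h1, h2, zero_div, zero_add]

end Pool.Agent.H21.CT
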