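import Pool.Agent.H21.CT.ExB

/-!
[H21 CT EXT]  Extraction of the cells: the upper tree.

Proof.  Induction on `n₀`, for all `X`.  `n₀ = 0`: `ext_bot` (with `Lf k 0 = Unit`); the last property holds since the filter has at
most `1 = (k-1)^0` elements; the property for `j ∈ τ` since the right side of `ext_bot` is at most `1`.
Step: `Tr R (s + 2) (n₁ + (n₀ + 1)) X` gives children `Y a` with `Tr R (s + 2) (n₁ + n₀) (Y a)`.  For `b : Fin k` let `V b` be the
cells of `Y (j.succAbove b)`; `V (b, l) = V b l` (`Lf k (n₀ + 1) = Fin k × Lf k n₀`); there is no cell in `Y j`: `C j = ∅`,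
`C (j.succAbove b) = ⋃ l d, V b l d`.  Disjointness, `Bnd` and `Hull ω (Y a) (C a)` as in `ext_bot`.  `j ∈ τ`: induction (the tuples with
entries in `Y a` have entries in `X`).  `j ∉ τ`: if for some `b` no leaf of `Y (j.succAbove b)` is met, the number of leaves is at
most `(k-1) (k-1)^n₀` by induction; otherwise `node_pick` gives `Rz R G X ω τ`, a contradiction.
-/

namespace Pool.Agent.H21.CT

open Finset Filter Pool.Agent.H92.BH Pool.Agent.H92.ST Pool.Agent.H21.CG

theorem ext_top_rz_mono {m : ℕ} {R : (Fin m → ℕ) → Prop} {G : Set ℕ} {X X' : Finset ℕ}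
    {ω : Set ℕ} {τ : Set (Fin m)} (hX : X ⊆ X') (h : Rz R G X ω τ) : Rz R G X' ω τ := by
  obtain ⟨z, h1, h2, h3⟩ := h
  exact ⟨z, fun a => hX (h1 a), h2, h3⟩

theorem ext_top_hull {m : ℕ} {Y C : Fin m → Finset ℕ}
    (hYo : ∀ a b, a < b → ∀ x ∈ Y a, ∀ y ∈ Y b, x < y) (hC : ∀ a, Bnd (Y a) (C a))
    {X : Finset ℕ} (hYX : ∀ a, Y a ⊆ X) {ω : Set ℕ}
    (hω : Hull ω X (Finset.univ.biUnion C)) (a : Fin m) : Hull ω (Y a) (C a) := by
  rintro x hx ⟨y, hy, hyx⟩ ⟨y', hy', hxy'⟩
  have h1 := hω x hx ⟨y, hYX a hy, hyx⟩ ⟨y', hYX a hy', hxy'⟩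
  obtain ⟨b, -, hb⟩ := Finset.mem_biUnion.1 h1
  have hxb : x ∈ Y b := (hC b).1 hb
  rcases lt_trichotomy a b with h | h | h
  · exact absurd (hYo a b h y' hy' x hxb) (not_lt.mpr hxy')
  · subst h
    exact hb
  · exact absurd (hYo b a h x hxb y hy) (not_lt.mpr hyx)

theorem ext_top_bnd {k : ℕ} {Y C : Fin (k + 1) → Finset ℕ}
    (hYo : ∀ a b, a < b → ∀ x ∈ Y a, ∀ y ∈ Y b, x < y) (hC : ∀ a, Bnd (Y a) (C a))
    {X : Finset ℕ} (hYX : ∀ a, Y a ⊆ X) : Bnd X (Finset.univ.biUnion C) := by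
  refine ⟨?_, ?_, ?_⟩
  · intro x hx
    obtain ⟨b, -, hb⟩ := Finset.mem_biUnion.1 hx
    exact hYX b ((hC b).1 hb)
  · obtain ⟨x, hx, hx'⟩ := (hC 0).2.1
    refine ⟨x, hYX _ hx, fun y hy => ?_⟩
    obtain ⟨b, -, hb⟩ := Finset.mem_biUnion.1 hy
    by_cases h0 : b = 0
    · subst h0
      exact hx' y hb
    · exact hYo 0 b (Fin.pos_of_ne_zero h0) x hx y ((hC b).1 hb)
  · obtain ⟨x, hx, hx'⟩ := (hC (Fin.last k)).2.2
    refine ⟨x, hYX _ hx, fun y hy => ?_⟩
    obtain ⟨b, -, hb⟩ := Finset.mem_biUnion.1 hy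
    by_cases h0 : b = Fin.last k
    · subst h0
      exact hx' y hb
    · exact hYo b (Fin.last k) (Fin.lt_last_iff_ne_last.2 h0) y ((hC b).1 hb) x hx

theorem ext_top_sum_Lf (k n : ℕ) (f : Lf k (n + 1) → ℕ) : ∑ p : Lf k (n + 1), f p =
    ∑ b : Fin k, ∑ l : Lf k n, f ((b, l) : Fin k × Lf k n) :=
  Fintype.sum_prod_type (α₁ := Fin k) (α₂ := Lf k n) f

open Classical in
theorem ext_top {k : ℕ} (hk : 1 ≤ k) {G : Set ℕ} {j : Fin (k + 1)} (hG : Iso1 G j)
    {R : (Fin (k + 1) → ℕ) → Prop} {s : ℕ} (hs : 1 ≤ s) (n₁ n₀ : ℕ) (X : Finset ℕ)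
    (h : Tr R (s + 2) (n₁ + n₀) X) :
    ∃ V : Lf k n₀ → Ix k n₁ → Finset ℕ, (∀ l d, (V l d).card = s) ∧
      (∀ l d l' d', (l, d) ≠ (l', d') → Disjoint (V l d) (V l' d')) ∧
      Bnd X (univ.biUnion fun l => univ.biUnion (V l)) ∧
      (∀ ω : Set ℕ, Hull ω X (univ.biUnion fun l => univ.biUnion (V l)) →
        ∀ τ : Set (Fin (k + 1)), j ∈ τ → ¬ Rz R G X ω τ →
          ∀ l, ∑ d, (if Un ω (V l d) then wt k n₁ d else 0) ≤ 1) ∧
      (∀ ω : Set ℕ, Hull ω X (univ.biUnion fun l => univ.biUnion (V l)) →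
        ∀ τ : Set (Fin (k + 1)), j ∉ τ → ¬ Rz R G X ω τ →
          (univ.filter (fun l => ∃ d, ∃ x ∈ V l d, x ∈ ω)).card ≤ (k - 1) ^ n₀) := by
  induction n₀ generalizing X with
  | zero =>
    obtain ⟨V, h1, h2, h3, h4⟩ := ext_bot hk hG hs n₁ X h
    have hU : (univ.biUnion fun _ : Lf k 0 => univ.biUnion V) = univ.biUnion V := by
      ext x
      constructor
      · intro hx
        obtain ⟨_, -, hx⟩ := Finset.mem_biUnion.1 hx
        exact hx
      · intro hx
        exact Finset.mem_biUnion.2 ⟨(() : Unit), Finset.mem_univ _, hx⟩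
    have hun : ∀ l l' : Lf k 0, l = l' := fun l l' => Subsingleton.elim (α := Unit) l l'
    refine ⟨fun _ => V, fun _ d => h1 d, ?_, ?_, ?_, ?_⟩
    · intro l d l' d' hne
      refine h2 d d' fun hd => hne ?_
      rw [hd, hun l l']
    · rw [hU]
      exact h3
    · rw [hU]
      intro ω hω τ hj hR l
      refine (h4 ω hω τ hj hR).trans ?_
      split_ifs
      · exact le_rfl
      · exact zero_le_one
    · intro ω _ τ _ _
      rw [pow_zero]
      refine (Finset.card_le_univ _).trans ?_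
      rw [card_Lf, pow_zero]
  | succ n₀ ih =>
    obtain ⟨Y, hYX, hYT, hYo, hYR⟩ : Tr R (s + 2) (n₁ + n₀ + 1) X := h
    choose V h1 h2 h3 h4 h5 using fun b : Fin k => ih (Y (j.succAbove b)) (hYT (j.succAbove b))
    -- the cells of the children
    let C : Fin (k + 1) → Finset ℕ := Fin.insertNth (α := fun _ => Finset ℕ) j ∅
      (fun b => univ.biUnion fun l => univ.biUnion (V b l))
    have hCj : C j = ∅ := Fin.insertNth_apply_same (α := fun _ => Finset ℕ) j _ _
    have hCb : ∀ b, C (j.succAbove b) = univ.biUnion fun l => univ.biUnion (V b l) := fun b =>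
      Fin.insertNth_apply_succAbove (α := fun _ => Finset ℕ) j _ _ b
    have hCB : ∀ a, Bnd (Y a) (C a) := by
      intro a
      rcases Fin.eq_self_or_eq_succAbove j a with rfl | ⟨b, rfl⟩
      · rw [hCj]
        have h6 : s + 2 ≤ (Y a).card := Tr_anti (Nat.succ_pos k) (Nat.zero_le _) (hYT a)
        have h7 : 0 < (Y a).card := by omega
        obtain ⟨x, hx⟩ := Finset.card_pos.1 h7
        exact ⟨Finset.empty_subset _, ⟨x, hx, fun y hy => absurd hy (Finset.notMem_empty y)⟩,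
          ⟨x, hx, fun y hy => absurd hy (Finset.notMem_empty y)⟩⟩
      · rw [hCb]
        exact h3 b
    -- the union of the cells
    let V' : Lf k (n₀ + 1) → Ix k n₁ → Finset ℕ := fun p => V p.1 p.2
    have hV' : ∀ (b : Fin k) (l : Lf k n₀), V' ((b, l) : Fin k × Lf k n₀) = V b l := fun _ _ => rfl
    have hcases : ∀ p : Lf k (n₀ + 1), ∃ (b : Fin k) (l : Lf k n₀),
        p = ((b, l) : Fin k × Lf k n₀) := by
      rintro ⟨b, l⟩
      exact ⟨b, l, rfl⟩
    have hU : (univ.biUnion fun p => univ.biUnion (V' p)) = univ.biUnion C := by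
      ext x
      constructor
      · intro hx
        obtain ⟨p, -, hx⟩ := Finset.mem_biUnion.1 hx
        obtain ⟨b, l, rfl⟩ := hcases p
        rw [hV'] at hx
        refine Finset.mem_biUnion.2 ⟨j.succAbove b, Finset.mem_univ _, ?_⟩
        rw [hCb]
        exact Finset.mem_biUnion.2 ⟨l, Finset.mem_univ _, hx⟩
      · intro hx
        obtain ⟨a, -, hx⟩ := Finset.mem_biUnion.1 hx
        rcases Fin.eq_self_or_eq_succAbove j a with rfl | ⟨b, rfl⟩
        · rw [hCj] at hx
          exact absurd hx (Finset.notMem_empty x)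
        · rw [hCb] at hx
          obtain ⟨l, -, hx⟩ := Finset.mem_biUnion.1 hx
          exact Finset.mem_biUnion.2 ⟨((b, l) : Fin k × Lf k n₀), Finset.mem_univ _, hx⟩
    have hsub : ∀ b l d, V b l d ⊆ Y (j.succAbove b) := by
      intro b l d x hx
      refine (h3 b).1 (Finset.mem_biUnion.2 ⟨l, Finset.mem_univ _, ?_⟩)
      exact Finset.mem_biUnion.2 ⟨d, Finset.mem_univ _, hx⟩
    have hord : ∀ a b x, x ∈ Y a → x ∈ Y b → a = b := by
      intro a b x hxa hxb
      rcases lt_trichotomy a b with h | h | h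
      · exact absurd (hYo a b h x hxa x hxb) (lt_irrefl x)
      · exact h
      · exact absurd (hYo b a h x hxb x hxa) (lt_irrefl x)
    refine ⟨V', ?_, ?_, ?_, ?_, ?_⟩
    · intro p d
      obtain ⟨b, l, rfl⟩ := hcases p
      exact h1 b l d
    · intro p d p' d' hne
      obtain ⟨b, l, rfl⟩ := hcases p
      obtain ⟨b', l', rfl⟩ := hcases p'
      rw [hV', hV']
      by_cases hb : b = b'
      · subst hb
        refine h2 b l d l' d' fun he => hne ?_
        obtain ⟨he1, he2⟩ := Prod.mk.inj he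
        rw [he1, he2]
      · rw [Finset.disjoint_left]
        intro x hx hx'
        exact hb (Fin.succAbove_right_injective
          (hord _ _ x (hsub b l d hx) (hsub b' l' d' hx')))
    · rw [hU]
      exact ext_top_bnd hYo hCB hYX
    · rw [hU]
      intro ω hω τ hj hR p
      obtain ⟨b, l, rfl⟩ := hcases p
      have h6 := ext_top_hull hYo hCB hYX hω (j.succAbove b)
      rw [hCb] at h6
      exact h4 b ω h6 τ hj (fun h7 => hR (ext_top_rz_mono (hYX _) h7)) l
    · rw [hU]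
      intro ω hω τ hj hR
      have hcard : ∀ b, (univ.filter (fun l => ∃ d, ∃ x ∈ V b l d, x ∈ ω)).card ≤
          (k - 1) ^ n₀ := by
        intro b
        have h6 := ext_top_hull hYo hCB hYX hω (j.succAbove b)
        rw [hCb] at h6
        exact h5 b ω h6 τ hj (fun h7 => hR (ext_top_rz_mono (hYX _) h7))
      have hsum : (univ.filter (fun p => ∃ d, ∃ x ∈ V' p d, x ∈ ω)).card =
          ∑ b : Fin k, (univ.filter (fun l => ∃ d, ∃ x ∈ V b l d, x ∈ ω)).card := by
        rw [Finset.card_filter, ext_top_sum_Lf]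
        refine Finset.sum_congr rfl fun b _ => ?_
        rw [Finset.card_filter]
      -- some child is not met
      obtain ⟨b₀, hb₀⟩ : ∃ b₀, ∀ l d, ∀ x ∈ V b₀ l d, x ∉ ω := by
        by_contra hcon
        push Not at hcon
        refine hR (node_pick hG hYo hYR hCB hYX hω τ ?_ (fun h6 => absurd h6 hj) ?_)
        · intro a ha
          rcases Fin.eq_self_or_eq_succAbove j a with rfl | ⟨b, rfl⟩
          · exact absurd ha hj
          · obtain ⟨l, d, x, hx, hxω⟩ := hcon b
            refine ⟨x, ?_, hxω⟩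
            rw [hCb]
            exact Finset.mem_biUnion.2 ⟨l, Finset.mem_univ _,
              Finset.mem_biUnion.2 ⟨d, Finset.mem_univ _, hx⟩⟩
        · intro _ x hx
          rw [hCj] at hx
          exact absurd hx (Finset.notMem_empty x)
      have h7 : (univ.filter (fun l => ∃ d, ∃ x ∈ V b₀ l d, x ∈ ω)).card = 0 := by
        rw [Finset.card_eq_zero, Finset.filter_eq_empty_iff]
        rintro l - ⟨d, x, hx, hxω⟩
        exact hb₀ l d x hx hxω
      rw [hsum, ← Finset.add_sum_erase _ _ (Finset.mem_univ b₀), h7, zero_add]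
      refine (Finset.sum_le_card_nsmul _ _ _ (fun b _ => hcard b)).trans ?_
      rw [Finset.card_erase_of_mem (Finset.mem_univ b₀), Finset.card_univ, Fintype.card_fin,
        smul_eq_mul, pow_succ, mul_comm]

end Pool.Agent.H21.CT
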