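import Pool.Agent.H21.CT.MainZ5

/-!
All sets of gaps with at most one pair of adjacent gaps at the same time.
-/

namespace Pool.Agent.H21.CT

open Filter Pool.Agent.H92.BH Pool.Agent.H92.ST Pool.Agent.H74.BT

/-- at most one pair of adjacent gaps -/
def OnePair (G : Set ℕ) : Prop := ∀ s ∈ G, ∀ t ∈ G, s + 1 ∈ G → t + 1 ∈ G → s = t

theorem iso1_of_onePair {k : ℕ} {G : Finset ℕ} (hk : G ⊆ Finset.range k) (h : OnePair ↑G) :
    ∃ j : Fin (k + 1), Iso1 (↑G : Set ℕ) j := by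
  by_cases hs : ∃ s, s ∈ G ∧ s + 1 ∈ G
  · obtain ⟨s, hs1, hs2⟩ := hs
    have h1 : s + 1 < k := Finset.mem_range.1 (hk hs2)
    refine ⟨⟨s + 1, by omega⟩, ?_⟩
    intro a haj b hba hb ha
    have hb' : b ∈ G := hb
    have ha' : b + 1 ∈ G := by
      rw [hba]
      exact ha
    have h2 := h b hb' s hs1 ha' hs2
    refine haj (Fin.ext ?_)
    show (a : ℕ) = s + 1
    omega
  · refine ⟨0, ?_⟩
    intro a _ b hba hb ha
    refine hs ⟨b, hb, ?_⟩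
    rw [hba]
    exact ha

theorem boh_two {J J' : ℕ} (α : Fin J → ℝ) (α' : Fin J' → ℝ) {ρ ρ' : ℝ} (hρ : 0 < ρ) (hρ' : 0 < ρ') :
    ∃ (K : ℕ) (β : Fin K → ℝ) (σ : ℝ), 0 < σ ∧ Boh β σ ⊆ Boh α ρ ∧ Boh β σ ⊆ Boh α' ρ' := by
  refine ⟨J + J', Fin.append α α', min ρ ρ', lt_min hρ hρ', ?_, ?_⟩
  · intro h hh i
    obtain ⟨m, hm⟩ := hh (Fin.castAdd J' i)
    rw [Fin.append_left] at hm
    exact ⟨m, hm.trans_le (min_le_left _ _)⟩
  · intro h hh i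
    obtain ⟨m, hm⟩ := hh (Fin.natAdd J i)
    rw [Fin.append_right] at hm
    exact ⟨m, hm.trans_le (min_le_right _ _)⟩

theorem boh_fin {ι : Type} [DecidableEq ι] (S : Finset ι) (J : ι → ℕ) (α : ∀ i, Fin (J i) → ℝ)
    (ρ : ι → ℝ) (hρ : ∀ i, 0 < ρ i) :
    ∃ (K : ℕ) (β : Fin K → ℝ) (σ : ℝ), 0 < σ ∧ ∀ i ∈ S, Boh β σ ⊆ Boh (α i) (ρ i) := by
  induction S using Finset.induction_on with
  | empty => exact ⟨0, Fin.elim0, 1, one_pos, by simp⟩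
  | insert i S _ ih =>
    obtain ⟨K, β, σ, hσ, h⟩ := ih
    obtain ⟨K', β', σ', hσ', h1, h2⟩ := boh_two (α i) β (hρ i) hσ
    refine ⟨K', β', σ', hσ', fun i' hi' => ?_⟩
    rcases Finset.mem_insert.1 hi' with rfl | hi'
    · exact h1
    · exact h2.trans (h i' hi')

theorem ext_restrict {r k : ℕ} {G : Set ℕ} {c : ℕ → Fin r} {A : Finset ℤ} (hA : A.card ≤ k + 1)
    (h : ExtG (G ∩ Set.Iio k) c A) : ExtG G c A := by
  obtain ⟨i, 𝓕, h0, h1⟩ := h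
  refine ⟨i, 𝓕, h0, fun F hF => ⟨(h1 F hF).1, fun F' hF' => ?_, (h1 F hF).2.2⟩⟩
  refine ((h1 F hF).2.1 F' hF').mono ?_
  intro N hN b hb
  refine hN b ?_
  rcases hb with hb | ⟨h2, ⟨t, ht, htc⟩, x, hx, hbx⟩
  · exact Or.inl hb
  · refine Or.inr ⟨h2, ⟨t, ⟨ht, ?_⟩, htc⟩, x, hx, hbx⟩
    have h3 : (A.filter (fun x => x < b)).card < A.card := by
      refine Finset.card_lt_card ⟨Finset.filter_subset _ _, fun h => ?_⟩
      have h4 := (Finset.mem_filter.1 (h hx)).2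
      exact absurd h4 (not_lt.2 hbx.le)
    show t < k
    omega

open Classical in
theorem bohr_all' {r : ℕ} (c : ℕ → Fin r) (k : ℕ) (hk : 1 ≤ k) :
    ∃ (J : ℕ) (α : Fin J → ℝ) (ρ : ℝ), 0 < ρ ∧ ∀ ε : ℝ, 0 < ε → ∃ X₀ : ℕ, ∀ X : ℕ, X₀ ≤ X →
      ∀ b : Fin k → ℤ, (((cube b X).filter (fun a : Fin k → ℤ => (∀ j, a j ∈ Boh α ρ) ∧
        ∃ G : Finset ℕ, G ⊆ Finset.range k ∧ OnePair ↑G ∧
          ¬ ExtG ↑G c (insert 0 (Finset.univ.image a)))).card : ℝ) ≤ ε * (X : ℝ) ^ k := by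
  set Ps : Finset (Finset ℕ) := (Finset.range k).powerset.filter (fun G : Finset ℕ => OnePair ↑G) with hPs
  have hex : ∀ G : Finset ℕ, ∃ (J : ℕ) (α : Fin J → ℝ) (ρ : ℝ), 0 < ρ ∧ (G ∈ Ps → ∀ ε : ℝ, 0 < ε →
      ∃ X₀ : ℕ, ∀ X : ℕ, X₀ ≤ X →
      ∀ b : Fin k → ℤ, (((cube b X).filter (fun a : Fin k → ℤ => (∀ j, a j ∈ Boh α ρ) ∧
        ¬ ExtG ↑G c (insert 0 (Finset.univ.image a)))).card : ℝ) ≤ ε * (X : ℝ) ^ k) := by
    intro G
    by_cases hG : G ∈ Ps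
    · rw [hPs, Finset.mem_filter, Finset.mem_powerset] at hG
      obtain ⟨j, hj⟩ := iso1_of_onePair hG.1 hG.2
      obtain ⟨J, α, ρ, hρ, H⟩ := bohr_G c k hk hj
      exact ⟨J, α, ρ, hρ, fun _ => H⟩
    · exact ⟨0, Fin.elim0, 1, one_pos, fun h => absurd h hG⟩
  choose J α ρ hρ H using hex
  obtain ⟨K, β, σ, hσ, hsub⟩ := boh_fin Ps J α ρ hρ
  refine ⟨K, β, σ, hσ, fun ε hε => ?_⟩
  have hn : (0 : ℝ) < Ps.card + 1 := by positivity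
  have hex2 : ∀ G : Finset ℕ, ∃ X₀ : ℕ, G ∈ Ps → ∀ X : ℕ, X₀ ≤ X →
      ∀ b : Fin k → ℤ, (((cube b X).filter (fun a : Fin k → ℤ => (∀ j, a j ∈ Boh (α G) (ρ G)) ∧
        ¬ ExtG ↑G c (insert 0 (Finset.univ.image a)))).card : ℝ) ≤
          ε / (Ps.card + 1) * (X : ℝ) ^ k := by
    intro G
    by_cases hG : G ∈ Ps
    · obtain ⟨X₀, h⟩ := H G hG (ε / (Ps.card + 1)) (by positivity)
      exact ⟨X₀, fun _ => h⟩
    · exact ⟨0, fun h => absurd h hG⟩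
  choose X₀ hX₀ using hex2
  refine ⟨Ps.sup X₀, fun X hX b => ?_⟩
  have h1 : ((cube b X).filter (fun a : Fin k → ℤ => (∀ j, a j ∈ Boh β σ) ∧
        ∃ G : Finset ℕ, G ⊆ Finset.range k ∧ OnePair ↑G ∧
          ¬ ExtG ↑G c (insert 0 (Finset.univ.image a)))) ⊆
      Ps.biUnion (fun G => (cube b X).filter (fun a : Fin k → ℤ =>
        (∀ j, a j ∈ Boh (α G) (ρ G)) ∧ ¬ ExtG ↑G c (insert 0 (Finset.univ.image a)))) := by
    intro a ha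
    obtain ⟨ha1, ha2, G, hG1, hG2, hG3⟩ := Finset.mem_filter.1 ha
    have hG : G ∈ Ps := by
      rw [hPs, Finset.mem_filter, Finset.mem_powerset]
      exact ⟨hG1, hG2⟩
    exact Finset.mem_biUnion.2 ⟨G, hG, Finset.mem_filter.2
      ⟨ha1, fun j => hsub G hG (ha2 j), hG3⟩⟩
  have h2 : (((cube b X).filter (fun a : Fin k → ℤ => (∀ j, a j ∈ Boh β σ) ∧
        ∃ G : Finset ℕ, G ⊆ Finset.range k ∧ OnePair ↑G ∧
          ¬ ExtG ↑G c (insert 0 (Finset.univ.image a)))).card : ℝ) ≤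
      ∑ G ∈ Ps, (((cube b X).filter (fun a : Fin k → ℤ =>
        (∀ j, a j ∈ Boh (α G) (ρ G)) ∧ ¬ ExtG ↑G c (insert 0 (Finset.univ.image a)))).card : ℝ) := by
    exact_mod_cast (Finset.card_le_card h1).trans Finset.card_biUnion_le
  refine h2.trans ((Finset.sum_le_sum fun G hG => hX₀ G hG X
    ((Finset.le_sup (f := X₀) hG).trans hX) b).trans ?_)
  rw [Finset.sum_const, nsmul_eq_mul, ← mul_assoc]
  refine mul_le_mul_of_nonneg_right ?_ (by positivity)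
  rw [mul_div_assoc', div_le_iff₀ hn]
  nlinarith

open Classical in
theorem bohr_all {r : ℕ} (c : ℕ → Fin r) (k : ℕ) (hk : 1 ≤ k) :
    ∃ (J : ℕ) (α : Fin J → ℝ) (ρ : ℝ), 0 < ρ ∧ ∀ ε : ℝ, 0 < ε → ∃ X₀ : ℕ, ∀ X : ℕ, X₀ ≤ X →
      ∀ b : Fin k → ℤ, (((cube b X).filter (fun a : Fin k → ℤ => (∀ j, a j ∈ Boh α ρ) ∧
        ∃ G : Set ℕ, OnePair G ∧
          ¬ ExtG G c (insert 0 (Finset.univ.image a)))).card : ℝ) ≤ ε * (X : ℝ) ^ k := by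
  obtain ⟨J, α, ρ, hρ, H⟩ := bohr_all' c k hk
  refine ⟨J, α, ρ, hρ, fun ε hε => ?_⟩
  obtain ⟨X₀, h⟩ := H ε hε
  refine ⟨X₀, fun X hX b => le_trans (Nat.cast_le.2 (Finset.card_le_card ?_)) (h X hX b)⟩
  intro a ha
  obtain ⟨ha1, ha2, G, hG1, hG2⟩ := Finset.mem_filter.1 ha
  have hco : (↑((Finset.range k).filter (fun t => t ∈ G)) : Set ℕ) = G ∩ Set.Iio k := by
    ext t
    simp only [Finset.coe_filter, Finset.mem_range, Set.mem_ofPred_eq, Set.mem_inter_iff,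
      Set.mem_Iio]
    tauto
  refine Finset.mem_filter.2 ⟨ha1, ha2, (Finset.range k).filter (fun t => t ∈ G),
    Finset.filter_subset _ _, ?_, ?_⟩
  · rw [hco]
    intro s hs t ht hs1 ht1
    exact hG1 s hs.1 t ht.1 hs1.1 ht1.1
  · rw [hco]
    intro hext
    refine hG2 (ext_restrict ?_ hext)
    refine (Finset.card_insert_le _ _).trans (Nat.succ_le_succ ?_)
    refine Finset.card_image_le.trans ?_
    rw [Finset.card_univ, Fintype.card_fin]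

end Pool.Agent.H21.CT
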