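import Pool.Agent.H92.ST.FuseA
import Pool.Agent.H21.CT.Defs

/-!
Fusion, first tuple: `firstT` (`Pool/Agent/H92/ST/FuseA.lean`) with `gaps z` replaced by `E z`.
-/

namespace Pool.Agent.H21.CT

open Filter Pool.Agent.H92.BH Pool.Agent.H92.ST

theorem firstE {m : ℕ} (hm : 1 ≤ m) (E : (Fin m → ℕ) → Set ℕ) (Ω : Set (Set ℕ)) (H : ℕ → Finset ℕ)
    (hinc : ∀ i j, i < j → ∀ x ∈ H i, ∀ y ∈ H j, x < y) (R₀ : (Fin m → ℕ) → Prop) (A : Set ℕ)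
    (hA : Lg R₀ H A)
    (hΩ : ∀ R : (Fin m → ℕ) → Prop, (∀ z, R z → R₀ z) → ∀ J ⊆ A, Lg R H J → ∀ τ : Set (Fin m),
      ∃ ω ∈ Ω, (∃ z : Fin m → ℕ, R z ∧ PtnE E ω τ z) ∧ Spl ω J) :
    ∃ (j : ℕ) (z : Fin m → ℕ), (∀ a, z a ∈ H j ∧ z a ∈ A) ∧ R₀ z ∧ ∃ J ⊆ A, Lg R₀ H J ∧
      (∀ x ∈ J, ∀ i ≤ j, x ∉ H i) ∧ ∀ τ : Set (Fin m), ∀ J' ⊆ J, Lg R₀ H J' →
        ∃ ω ∈ Ω, PtnE E ω τ z ∧ Spl ω J' := by
  classical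
  have hdisj : ∀ i j, i ≠ j → Disjoint (H i) (H j) := by
    intro i j hij
    rw [Finset.disjoint_left]
    intro x hx hx'
    rcases lt_or_gt_of_ne hij with h | h
    · exact lt_irrefl _ (hinc i j h x hx x hx')
    · exact lt_irrefl _ (hinc j i h x hx' x hx)
  by_contra hcon
  have hbad : ∀ j, ∀ z : Fin m → ℕ, (∀ a, z a ∈ H j ∧ z a ∈ A) → R₀ z → ∀ K ⊆ A, Lg R₀ H K →
      ∃ t ∈ (Set.univ : Set (Set (Fin m))), ∃ K' ⊆ K, Lg R₀ H K' ∧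
        ¬ ∃ ω ∈ Ω, PtnE E ω t z ∧ Spl ω K' := by
    intro j z hz hRz K hKA hK
    by_contra hc
    refine hcon ⟨j, z, hz, hRz, K ∩ {x | ∀ i ≤ j, x ∉ H i}, Set.inter_subset_left.trans hKA,
      Lg_cut hdisj hK j hm, fun x hx => hx.2, ?_⟩
    intro τ J' hJ' hJ'L
    by_contra hc'
    exact hc ⟨τ, Set.mem_univ _, J', hJ'.trans Set.inter_subset_left, hJ'L, hc'⟩
  have hst : ∀ K ⊆ A, Lg R₀ H K → ∀ n : ℕ, ∃ (j : ℕ) (X : Finset ℕ) (K' : Set ℕ)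
      (t : Set (Fin m)), n ≤ j ∧ X ⊆ H j ∧ ↑X ⊆ K ∧ K' ⊆ K ∧ Lg R₀ H K' ∧
      t ∈ (Finset.univ : Finset (Set (Fin m))) ∧
      Tr (fun z => R₀ z ∧ ¬ ∃ ω ∈ Ω, PtnE E ω t z ∧ Spl ω K') n n X := by
    intro K hKA hK n
    obtain ⟨S, D, hSD⟩ := Tr_relq hm (Finset.univ : Finset (Set (Fin m))) n n
    obtain ⟨j, hj, X, hXH, hXK, hXT⟩ := hK (max n (max S D))
    have hXT' : Tr R₀ S D X :=
      Tr_anti hm ((le_max_right S D).trans (le_max_right _ _))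
        (Tr_mono ((le_max_left S D).trans (le_max_right _ _)) subset_rfl (fun _ _ h => h) hXT)
    obtain ⟨K', hK'K, hK', hE0⟩ := shrinkT Ω (Lg R₀ H) A Set.univ (fun ω t z => PtnE E ω t z)
      ((Fintype.piFinset (fun _ : Fin m => X)).filter R₀) (by
        intro z hz K₁ hK₁A hK₁
        obtain ⟨hz1, hz2⟩ := Finset.mem_filter.mp hz
        rw [Fintype.mem_piFinset] at hz1
        exact hbad j z (fun a => ⟨hXH (hz1 a), hKA (hXK (hz1 a))⟩) hz2 K₁ hK₁A hK₁) K hKA hK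
    obtain ⟨t, _, ht⟩ := hSD R₀ (fun t z => R₀ z ∧ ¬ ∃ ω ∈ Ω, PtnE E ω t z ∧ Spl ω K') X (by
      intro z hz hRz
      obtain ⟨t, _, ht⟩ := hE0 z (Finset.mem_filter.mpr ⟨Fintype.mem_piFinset.mpr hz, hRz⟩)
      exact ⟨t, Finset.mem_univ _, hRz, ht⟩) hXT'
    exact ⟨j, X, K', t, (le_max_left _ _).trans hj, hXH, hXK, hK'K, hK', Finset.mem_univ _, ht⟩
  obtain ⟨j, X, K, τ, I, hI, -, hnj, hXH, hXK, hKA, hno⟩ := seqT H (Lg R₀ H) A hA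
    (Finset.univ : Finset (Set (Fin m)))
    (fun n X K' t => Tr (fun z => R₀ z ∧ ¬ ∃ ω ∈ Ω, PtnE E ω t z ∧ Spl ω K') n n X) hst
  have hJA : {x | ∃ n ∈ I, x ∈ X n} ⊆ A := by
    rintro x ⟨n, _, hx⟩
    exact hKA n (hXK n n le_rfl hx)
  obtain ⟨ω, hω, ⟨z, hRz, hzτ⟩, hS⟩ := hΩ
    (fun z => R₀ z ∧ ∃ n ∈ I, (∀ a, z a ∈ X n) ∧ ¬ ∃ ω ∈ Ω, PtnE E ω τ z ∧ Spl ω (K (n + 1)))
    (fun z hz => hz.1) _ hJA (lg_union hm hI hnj hXH (by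
      intro n hn
      exact Tr_mono le_rfl subset_rfl (fun z hz h => ⟨h.1, n, hn, hz, h.2⟩) (hno n hn))) τ
  obtain ⟨_, n, hn, _, hcontra⟩ := hRz
  exact hcontra ⟨ω, hω, hzτ, spl_later hXK hS n⟩

end Pool.Agent.H21.CT
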