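import Pool.Agent.H21.CT.FuseA

/-!
Fusion, the following elements: `nextT` (`Pool/Agent/H92/ST/FuseB.lean`) with `gaps z` replaced by `E z`.
-/

namespace Pool.Agent.H21.CT

open Filter Pool.Agent.H92.BH Pool.Agent.H92.ST

/-- every pattern on `z` and `s`, with nothing in the set `E z`, is compatible with splitting all large
subsets of `J` -/
def GoodE {m : ℕ} (E : (Fin m → ℕ) → Set ℕ) (Ω : Set (Set ℕ)) (R₀ : (Fin m → ℕ) → Prop) (H : ℕ → Finset ℕ) (z : Fin m → ℕ)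
    (s : Finset ℕ) (J : Set ℕ) : Prop :=
  ∀ (τ : Set (Fin m)) (F : Finset ℕ), F ⊆ s → ∀ J' ⊆ J, Lg R₀ H J' →
    ∃ ω ∈ Ω, PtnE E ω τ z ∧ (∀ a ∈ s, a ∈ ω ↔ a ∈ F) ∧ Spl ω J'

theorem nextE {m : ℕ} (hm : 1 ≤ m) (E : (Fin m → ℕ) → Set ℕ) (Ω : Set (Set ℕ)) (H : ℕ → Finset ℕ)
    (hdisj : ∀ i j, i ≠ j → Disjoint (H i) (H j)) (R₀ : (Fin m → ℕ) → Prop) (z : Fin m → ℕ)
    (s : Finset ℕ) (J : Set ℕ) (hJ : Lg R₀ H J) (hgood : GoodE E Ω R₀ H z s J) :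
    ∃ j, ∃ x ∈ H j, x ∈ J ∧ ∃ J' ⊆ J, Lg R₀ H J' ∧ (∀ y ∈ J', ∀ i ≤ j, y ∉ H i) ∧
      GoodE E Ω R₀ H z (insert x s) J' := by
  classical
  by_contra hcon
  set Q : Finset (Set (Fin m) × Finset ℕ × Bool) :=
    (Finset.univ : Finset (Set (Fin m))) ×ˢ (s.powerset ×ˢ (Finset.univ : Finset Bool)) with hQ
  set P : Set ℕ → Set (Fin m) × Finset ℕ × Bool → ℕ → Prop := fun ω t x =>
    PtnE E ω t.1 z ∧ (∀ a ∈ s, a ∈ ω ↔ a ∈ t.2.1) ∧ (x ∈ ω ↔ t.2.2 = true) with hP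
  have hbad : ∀ j, ∀ x ∈ H j, x ∈ J → ∀ K ⊆ J, Lg R₀ H K →
      ∃ t ∈ (↑Q : Set (Set (Fin m) × Finset ℕ × Bool)), ∃ K' ⊆ K, Lg R₀ H K' ∧
        ¬ ∃ ω ∈ Ω, P ω t x ∧ Spl ω K' := by
    intro j x hx hxJ K hKJ hK
    by_contra hc
    refine hcon ⟨j, x, hx, hxJ, K ∩ {x | ∀ i ≤ j, x ∉ H i}, Set.inter_subset_left.trans hKJ,
      Lg_cut hdisj hK j hm, fun x hx => hx.2, ?_⟩
    intro τ F hF J' hJ' hJ'L
    by_contra hc'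
    refine hc ⟨(τ, F ∩ s, decide (x ∈ F)), ?_, J', hJ'.trans Set.inter_subset_left, hJ'L, ?_⟩
    · rw [hQ, Finset.mem_coe, Finset.mem_product, Finset.mem_product]
      exact ⟨Finset.mem_univ _, Finset.mem_powerset.mpr Finset.inter_subset_right,
        Finset.mem_univ _⟩
    · rintro ⟨ω, hω, ⟨h1, h2, h3⟩, h4⟩
      refine hc' ⟨ω, hω, h1, ?_, h4⟩
      intro a ha
      rcases Finset.mem_insert.mp ha with rfl | ha
      · rw [h3, decide_eq_true_eq]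
      · rw [h2 a ha, Finset.mem_inter]
        exact ⟨fun h => h.1, fun h => ⟨h, ha⟩⟩
  have hst : ∀ K ⊆ J, Lg R₀ H K → ∀ n : ℕ, ∃ (j : ℕ) (X : Finset ℕ) (K' : Set ℕ)
      (t : Set (Fin m) × Finset ℕ × Bool), n ≤ j ∧ X ⊆ H j ∧ ↑X ⊆ K ∧ K' ⊆ K ∧ Lg R₀ H K' ∧
      t ∈ Q ∧ (Tr R₀ n n X ∧ ∀ x ∈ X, ¬ ∃ ω ∈ Ω, P ω t x ∧ Spl ω K') := by
    intro K hKJ hK n
    obtain ⟨j, hj, X, hXH, hXK, hXT⟩ := hK (max (Q.card * n) (max n 1))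
    have hXne : X.Nonempty :=
      Tr_nonempty hm ((le_max_right n 1).trans (le_max_right _ _)) hXT
    have hXT' : Tr R₀ (Q.card * n) (Q.card * n) X :=
      Tr_anti hm (le_max_left _ _) (Tr_mono (le_max_left _ _) subset_rfl (fun _ _ h => h) hXT)
    obtain ⟨K', hK'K, hK', hE0⟩ := shrinkT Ω (Lg R₀ H) J (↑Q) P X (by
        intro x hx K₁ hK₁J hK₁
        exact hbad j x (hXH hx) (hKJ (hXK hx)) K₁ hK₁J hK₁) K hKJ hK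
    choose! χ hχQ hχ using hE0
    obtain ⟨t, ht, htT⟩ := Tr_col hm Q χ hXne (fun x hx => hχQ x hx) hXT'
    have htT' : Tr R₀ n n (X.filter (fun x => χ x = t)) := by convert htT
    refine ⟨j, X.filter (fun x => χ x = t), K', t,
      ((le_max_left n 1).trans (le_max_right _ _)).trans hj,
      (Finset.filter_subset _ _).trans hXH, ?_, hK'K, hK', ht, htT', ?_⟩
    · intro x hx
      exact hXK (Finset.filter_subset _ _ hx)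
    · intro x hx
      obtain ⟨hx1, hx2⟩ := Finset.mem_filter.mp hx
      rw [← hx2]
      exact hχ x hx1
  obtain ⟨j, X, K, t, I, hI, ht, hnj, hXH, hXK, hKJ, hno⟩ := seqT H (Lg R₀ H) J hJ Q
    (fun n X K' t => Tr R₀ n n X ∧ ∀ x ∈ X, ¬ ∃ ω ∈ Ω, P ω t x ∧ Spl ω K') hst
  have hJ₁ : {x | ∃ n ∈ I, x ∈ X n} ⊆ J := by
    rintro x ⟨n, _, hx⟩
    exact hKJ n (hXK n n le_rfl hx)
  rw [hQ, Finset.mem_product, Finset.mem_product] at ht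
  obtain ⟨ω, hω, h1, h2, h3⟩ := hgood t.1 t.2.1 (Finset.mem_powerset.mp ht.2.1) _ hJ₁
    (lg_union hm hI hnj hXH (fun n hn => (hno n hn).1))
  have hx : ∃ x, (∃ n ∈ I, x ∈ X n) ∧ (x ∈ ω ↔ t.2.2 = true) := by
    rcases hb : t.2.2 with _ | _
    · obtain ⟨x, hx, hxω⟩ := h3.2.nonempty
      exact ⟨x, hx, by simp [hxω]⟩
    · obtain ⟨x, hx, hxω⟩ := h3.1.nonempty
      exact ⟨x, hx, by simp [hxω]⟩
  obtain ⟨x, ⟨n, hn, hxn⟩, hxω⟩ := hx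
  exact (hno n hn).2 x hxn ⟨ω, hω, ⟨h1, h2, hxω⟩, spl_later hXK h3 n⟩

end Pool.Agent.H21.CT
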