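import Pool.Agent.H21.CT.ExT
import Pool.Agent.H21.CT.Core5
import Pool.Agent.H92.ST.TrC
import Pool.Agent.H92.BH.XPair

/-!
[H21 CT STAR5]  Limits of translates of the primes of one colour realising prescribed patterns on trees.

Proof.  As `star` (`Pool/Agent/H92/ST/Star.lean`), with `ext_top`, `core5` in place of `extract`, `core4`.  Choose `n₀` with
`80 r (k-1)^n₀ ≤ k^n₀` and `n₁ = 80 k r + 1` (`0 < r`).  The index type is `ι = Lf k n₀ × Ix k n₁`, `K = card ι > 0`, the weights are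
`w (l, d) = wt k n₁ d`; `core5 K` gives `s`.  By `Lg R H J`, `Tr_mono` and `Tr_anti` choose `j_0 < j_1 < ...` and `X g ⊆ H (j_g)`,
`↑(X g) ⊆ J`, `Tr R (s g + 2) (n₁ + n₀) (X g)`; `ext_top` gives `V g`, and `H' g (l, d) = V g l d` (cards `s g`, disjoint: different `g` by
the order of the `X g`; admissible).  `core5` gives `B`, and `colour_parts c B` gives `Bf i ∈ Lims c i`, `Bf i ⊆ B`, covering `B`.
CLAIM: for `g` in the infinite set of `core5` some colour `i` has `Rz R G (X g) (Bf i) (τ i)` and `Bf i` meets a cell `V g l d`.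
Otherwise, with `x = ∑ (l, d), (if Un B (V g l d) then wt k n₁ d else 0) ≥ (1/40) k^n₀ n₁/k` (`wt_sum`, `card_Lf`):
if `Un B V`, the only element of `B` in `V` lies in some `Bf i`, and `Un (Bf i) V` (`Bf i ⊆ B`); so
`x ≤ ∑ i, ∑ l, ∑ d, (if Un (Bf i) (V g l d) then wt k n₁ d else 0)`.  For a colour whose `Bf i` meets no cell the term is `0`; for the others
`¬ Rz`: if `j ∈ τ i`, `∑ l` is at most `k^n₀`; if `j ∉ τ i`, at most `(n₁/k) #{l | Bf i meets a cell of l} ≤ (n₁/k) (k-1)^n₀`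
(`wt_sum`, `wt_nonneg`).  So `k^n₀ n₁/(40 k) ≤ r k^n₀ + r (n₁/k) (k-1)^n₀ ≤ r k^n₀ + n₁ k^n₀/(80 k)`, i.e. `n₁ ≤ 80 k r`: contradiction.
Pigeonhole: one colour `i` for infinitely many `g`, `ω = Bf i`.  `Hull ω (X g) (cells of g)` as `hωg` in `star`.  `ω ⊆ J`, `Spl ω J` as in
`star`: for infinitely many `g` the set `ω` meets `X g`, and the lower bound element of `Bnd` of `X g` is in `J` and not in `ω`.
-/

namespace Pool.Agent.H21.CT

open Finset Filter Pool.Agent.H21.MT Pool.Agent.H92.BH Pool.Agent.H92.ST Pool.Agent.H21.CG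

theorem star5 {r k : ℕ} (hk : 1 ≤ k) {G : Set ℕ} {j : Fin (k + 1)} (hG : Iso1 G j)
    (c : ℕ → Fin r) (H : ℕ → Finset ℕ) (hinc : ∀ i j, i < j → ∀ x ∈ H i, ∀ y ∈ H j, x < y)
    (hadm : ∀ p : ℕ, p.Prime → ∃ a : ℕ, ∀ j, ∀ h ∈ H j, ¬ p ∣ a + h)
    (R : (Fin (k + 1) → ℕ) → Prop) (J : Set ℕ) (hJ : Lg R H J)
    (τ : Fin r → Set (Fin (k + 1))) :
    ∃ i, ∃ ω ∈ Lims c i, ω ⊆ J ∧ (∃ z : Fin (k + 1) → ℕ, R z ∧ PtnE (gapG G) ω (τ i) z) ∧
      Spl ω J := by
  classical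
  have hr : 0 < r := (c 0).pos
  have hrR : (0 : ℝ) < r := by exact_mod_cast hr
  have hkR : (0 : ℝ) < k := by exact_mod_cast hk
  -- the heights
  obtain ⟨n₀, hn₀⟩ : ∃ n₀ : ℕ, 80 * (r : ℝ) * ((k - 1 : ℕ) : ℝ) ^ n₀ ≤ (k : ℝ) ^ n₀ := by
    have h1 : (((k - 1 : ℕ) : ℝ) / k) < 1 := by
      rw [div_lt_one hkR]
      exact_mod_cast (by omega : k - 1 < k)
    obtain ⟨n₀, hn₀⟩ := exists_pow_lt_of_lt_one
      (show (0 : ℝ) < 1 / (80 * (r : ℝ)) by positivity) h1
    refine ⟨n₀, ?_⟩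
    rw [div_pow, div_lt_div_iff₀ (by positivity) (by positivity)] at hn₀
    linarith
  obtain ⟨n₁, hn₁⟩ : ∃ n₁ : ℕ, n₁ = 80 * k * r + 1 := ⟨_, rfl⟩
  have hcardι : 0 < Fintype.card (Lf k n₀ × Ix k n₁) := by
    rw [Fintype.card_prod, card_Lf]
    refine Nat.mul_pos (pow_pos hk n₀) ?_
    rw [Fintype.card_pos_iff, hn₁]
    exact ⟨(none : Option (Fin k × Ix k (80 * k * r)))⟩
  obtain ⟨s, hs1, hs⟩ := core5 (Fintype.card (Lf k n₀ × Ix k n₁)) hcardι
  -- the trees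
  have hsel : ∀ t n : ℕ, ∃ (j : ℕ) (X : Finset ℕ), n < j ∧ X ⊆ H j ∧ ↑X ⊆ J ∧
      Tr R (s t + 2) (n₁ + n₀) X := by
    intro t n
    obtain ⟨j, hj, X, hX1, hX2, hX3⟩ := hJ (max (n + 1) (max (n₁ + n₀) (s t + 2)))
    refine ⟨j, X, lt_of_lt_of_le (Nat.lt_succ_self n) ((le_max_left _ _).trans hj), hX1, hX2, ?_⟩
    have h1 := Tr_anti (by omega : 1 ≤ k + 1) (d' := n₁ + n₀)
      ((le_max_left (n₁ + n₀) (s t + 2)).trans (le_max_right (n + 1) _)) hX3
    exact Tr_mono ((le_max_right (n₁ + n₀) (s t + 2)).trans (le_max_right (n + 1) _)) subset_rfl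
      (fun z _ h => h) h1
  choose jf Xf h1 h2 h3 h4 using hsel
  let u : ℕ → ℕ := fun n => Nat.rec 0 (fun t m => jf t m) n
  have hu : ∀ t, u (t + 1) = jf t (u t) := fun t => rfl
  have hult : ∀ t, u t < u (t + 1) := fun t => by
    rw [hu]
    exact h1 _ _
  have humono : StrictMono u := strictMono_nat_of_lt_succ hult
  obtain ⟨X, hX⟩ : ∃ X : ℕ → Finset ℕ, ∀ t, X t = Xf t (u t) := ⟨fun t => Xf t (u t), fun _ => rfl⟩
  have hXH : ∀ t, X t ⊆ H (u (t + 1)) := fun t => by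
    rw [hX, hu]
    exact h2 _ _
  have hXJ : ∀ t, ↑(X t) ⊆ J := fun t => by
    rw [hX]
    exact h3 _ _
  have hXT : ∀ t, Tr R (s t + 2) (n₁ + n₀) (X t) := fun t => by
    rw [hX]
    exact h4 _ _
  have hXord : ∀ g g', g < g' → ∀ x ∈ X g, ∀ y ∈ X g', x < y := by
    intro g g' hg x hx y hy
    exact hinc _ _ (humono (Nat.succ_lt_succ hg)) x (hXH g hx) y (hXH g' hy)
  have hXeq : ∀ g g' x, x ∈ X g → x ∈ X g' → g = g' := by
    intro g g' x hx hx'
    rcases lt_trichotomy g g' with h | h | h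
    · exact absurd (hXord g g' h x hx x hx') (lt_irrefl x)
    · exact h
    · exact absurd (hXord g' g h x hx' x hx) (lt_irrefl x)
  choose V e1 e2 e3 e4 e5 using fun t => ext_top hk hG (hs1 t) n₁ n₀ (X t) (hXT t)
  have hVX : ∀ g l d, V g l d ⊆ X g := fun g l d x hx =>
    (e3 g).1 (Finset.mem_biUnion.2 ⟨l, Finset.mem_univ l,
      Finset.mem_biUnion.2 ⟨d, Finset.mem_univ d, hx⟩⟩)
  obtain ⟨B, hB0, hB1, hB2⟩ := hs (Lf k n₀ × Ix k n₁) (fun p => wt k n₁ p.2)
    (fun g p => V g p.1 p.2) rfl (fun p => wt_nonneg k n₁ p.2) (fun g p => e1 g p.1 p.2) (by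
      rintro g ⟨l, d⟩ g' ⟨l', d'⟩ hne
      by_cases hg : g = g'
      · subst hg
        refine e2 g l d l' d' ?_
        intro h
        exact hne (by rw [h])
      · rw [Finset.disjoint_left]
        intro x hx hx'
        exact hg (hXeq g g' x (hVX g l d hx) (hVX g' l' d' hx'))) (by
      intro p hp
      obtain ⟨a, ha⟩ := hadm p hp
      exact ⟨a, fun g q h hh => ha (u (g + 1)) h (hXH _ (hVX g q.1 q.2 hh))⟩)
  obtain ⟨Bf, hBf1, hBf2, hBf3⟩ := colour_parts c B hB1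
  have hωX : ∀ i, ∀ a ∈ Bf i, ∃ g l d, a ∈ V g l d := by
    intro i a ha
    obtain ⟨g, ⟨l, d⟩, hgd⟩ := hB0 a (hBf2 i ha)
    exact ⟨g, l, d, hgd⟩
  have hωg : ∀ i g, Hull (Bf i) (X g) (univ.biUnion fun l => univ.biUnion (V g l)) := by
    rintro i g x hx ⟨y, hy, hyx⟩ ⟨y', hy', hxy'⟩
    obtain ⟨g', l, d, hxV⟩ := hωX i x hx
    have hxX : x ∈ X g' := hVX g' l d hxV
    rcases lt_trichotomy g g' with h | h | h
    · exact absurd (hXord g g' h y' hy' x hxX) (not_lt.mpr hxy')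
    · subst h
      exact Finset.mem_biUnion.2 ⟨l, Finset.mem_univ l,
        Finset.mem_biUnion.2 ⟨d, Finset.mem_univ d, hxV⟩⟩
    · exact absurd (hXord g' g h x hxX y hy) (not_lt.mpr hyx)
  have hwsum : ∑ p : Lf k n₀ × Ix k n₁, wt k n₁ p.2 = (k : ℝ) ^ n₀ * (n₁ / k) := by
    rw [Fintype.sum_prod_type]
    simp only
    rw [wt_sum k hk n₁, Finset.sum_const, Finset.card_univ, card_Lf, nsmul_eq_mul, Nat.cast_pow]
  -- one colour realises its pattern
  have hmany : ∀ g ∈ {g : ℕ | (1 / 40 : ℝ) * ∑ p : Lf k n₀ × Ix k n₁, wt k n₁ p.2 ≤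
        ∑ p : Lf k n₀ × Ix k n₁, (if Un B (V g p.1 p.2) then wt k n₁ p.2 else 0)},
      ∃ i : Fin r, Rz R G (X g) (Bf i) (τ i) ∧ ∃ l d, ∃ x ∈ V g l d, x ∈ Bf i := by
    intro g hg
    by_contra hcon
    push Not at hcon
    have hg : (1 / 40 : ℝ) * ∑ p : Lf k n₀ × Ix k n₁, wt k n₁ p.2 ≤
        ∑ p : Lf k n₀ × Ix k n₁, (if Un B (V g p.1 p.2) then wt k n₁ p.2 else 0) := hg
    rw [hwsum] at hg
    set f : Fin r → ℝ := fun i =>
      ∑ l, ∑ d, (if Un (Bf i) (V g l d) then wt k n₁ d else 0) with hf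
    have hle : ∑ p : Lf k n₀ × Ix k n₁, (if Un B (V g p.1 p.2) then wt k n₁ p.2 else 0) ≤
        ∑ i, f i := by
      have hterm : ∀ p : Lf k n₀ × Ix k n₁, (if Un B (V g p.1 p.2) then wt k n₁ p.2 else 0) ≤
          ∑ i, (if Un (Bf i) (V g p.1 p.2) then wt k n₁ p.2 else 0) := by
        intro p
        have hnn : ∀ i ∈ (univ : Finset (Fin r)),
            0 ≤ (if Un (Bf i) (V g p.1 p.2) then wt k n₁ p.2 else 0) := by
          intro i _
          split_ifs
          · exact wt_nonneg k n₁ p.2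
          · exact le_rfl
        by_cases hU : Un B (V g p.1 p.2)
        · rw [if_pos hU]
          obtain ⟨x, hx, hxB, hux⟩ := hU
          obtain ⟨i, hi⟩ := hBf3 x hxB
          have hUi : Un (Bf i) (V g p.1 p.2) :=
            ⟨x, hx, hi, fun y hy hy' => hux y hy (hBf2 i hy')⟩
          have h5 := Finset.single_le_sum hnn (Finset.mem_univ i)
          rw [if_pos hUi] at h5
          exact h5
        · rw [if_neg hU]
          exact Finset.sum_nonneg hnn
      refine (Finset.sum_le_sum fun p _ => hterm p).trans (le_of_eq ?_)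
      rw [Finset.sum_comm]
      refine Finset.sum_congr rfl fun i _ => ?_
      rw [Fintype.sum_prod_type]
    have hfi : ∀ i, f i ≤ (k : ℝ) ^ n₀ + (n₁ / k) * ((k - 1 : ℕ) : ℝ) ^ n₀ := by
      intro i
      by_cases hmet : ∃ l d, ∃ x ∈ V g l d, x ∈ Bf i
      · have hnR : ¬ Rz R G (X g) (Bf i) (τ i) := by
          intro hR
          obtain ⟨l, d, x, hx, hx'⟩ := hmet
          exact hcon i hR l d x hx hx'
        by_cases hj : j ∈ τ i
        · have h5 : f i ≤ (k : ℝ) ^ n₀ := by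
            simp only [hf]
            refine (Finset.sum_le_card_nsmul univ _ 1
              (fun l _ => e4 g (Bf i) (hωg i g) (τ i) hj hnR l)).trans (le_of_eq ?_)
            rw [Finset.card_univ, card_Lf, nsmul_eq_mul, mul_one, Nat.cast_pow]
          have h6 : 0 ≤ (n₁ / k : ℝ) * ((k - 1 : ℕ) : ℝ) ^ n₀ := by positivity
          linarith
        · have h5 : f i ≤ (n₁ / k) * ((k - 1 : ℕ) : ℝ) ^ n₀ := by
            have h6 : ∀ l : Lf k n₀, ∑ d, (if Un (Bf i) (V g l d) then wt k n₁ d else 0) ≤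
                (if ∃ d, ∃ x ∈ V g l d, x ∈ Bf i then (n₁ / k : ℝ) else 0) := by
              intro l
              by_cases hl : ∃ d, ∃ x ∈ V g l d, x ∈ Bf i
              · rw [if_pos hl, ← wt_sum k hk n₁]
                refine Finset.sum_le_sum fun d _ => ?_
                split_ifs
                · exact le_rfl
                · exact wt_nonneg k n₁ d
              · rw [if_neg hl]
                refine le_of_eq (Finset.sum_eq_zero fun d _ => ?_)
                rw [if_neg]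
                rintro ⟨x, hx, hx', -⟩
                exact hl ⟨d, x, hx, hx'⟩
            simp only [hf]
            refine (Finset.sum_le_sum fun l _ => h6 l).trans ?_
            rw [← Finset.sum_filter, Finset.sum_const, nsmul_eq_mul, mul_comm]
            refine mul_le_mul_of_nonneg_left ?_ (by positivity)
            exact_mod_cast e5 g (Bf i) (hωg i g) (τ i) hj hnR
          have h6 : 0 ≤ (k : ℝ) ^ n₀ := by positivity
          linarith
      · have h5 : f i = 0 := by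
          simp only [hf]
          refine Finset.sum_eq_zero fun l _ => Finset.sum_eq_zero fun d _ => ?_
          rw [if_neg]
          rintro ⟨x, hx, hx', -⟩
          exact hmet ⟨l, d, x, hx, hx'⟩
        rw [h5]
        positivity
    have hsumf : ∑ i, f i ≤ r * ((k : ℝ) ^ n₀ + (n₁ / k) * ((k - 1 : ℕ) : ℝ) ^ n₀) := by
      refine (Finset.sum_le_card_nsmul univ _ _ (fun i _ => hfi i)).trans (le_of_eq ?_)
      rw [Finset.card_univ, Fintype.card_fin, nsmul_eq_mul]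
    have hP : 0 < (k : ℝ) ^ n₀ := by positivity
    have hn₁R : (n₁ : ℝ) = 80 * k * r + 1 := by
      rw [hn₁]
      push_cast
      ring
    have hq0 : 0 ≤ (n₁ / k : ℝ) := by positivity
    have h7 : (n₁ / k : ℝ) * (80 * (r : ℝ) * ((k - 1 : ℕ) : ℝ) ^ n₀) ≤ (n₁ / k) * (k : ℝ) ^ n₀ :=
      mul_le_mul_of_nonneg_left hn₀ hq0
    have h8 := (hg.trans hle).trans hsumf
    have h9 : (k : ℝ) ^ n₀ * (n₁ / k) ≤ (k : ℝ) ^ n₀ * (80 * r) := by nlinarith
    have h10 : (n₁ / k : ℝ) ≤ 80 * r := le_of_mul_le_mul_left h9 hP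
    rw [div_le_iff₀ hkR, hn₁R] at h10
    nlinarith
  have hcol : ∃ i : Fin r,
      {g : ℕ | Rz R G (X g) (Bf i) (τ i) ∧ ∃ l d, ∃ x ∈ V g l d, x ∈ Bf i}.Infinite := by
    by_contra hcon
    push Not at hcon
    refine hB2 ((Set.finite_iUnion fun i => hcon i).subset ?_)
    intro t ht
    obtain ⟨i, hi⟩ := hmany t ht
    exact Set.mem_iUnion.mpr ⟨i, hi⟩
  obtain ⟨i, hi⟩ := hcol
  have hXge : ∀ g, ∀ x ∈ X g, g ≤ x := by
    intro g
    induction g with
    | zero => exact fun x _ => Nat.zero_le x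
    | succ g ih =>
      intro x hx
      obtain ⟨y, hy, _⟩ := (e3 g).2.1
      have h5 := ih y hy
      have h6 := hXord g (g + 1) (Nat.lt_succ_self g) y hy x hx
      omega
  refine ⟨i, Bf i, hBf1 i, ?_, ?_, ?_, ?_⟩
  · intro a ha
    obtain ⟨g, l, d, haV⟩ := hωX i a ha
    exact hXJ g (hVX g l d haV)
  · obtain ⟨g, ⟨z, -, hz2, hz3⟩, -⟩ := hi.nonempty
    exact ⟨z, hz2, hz3⟩
  · apply Set.infinite_of_not_bddAbove
    rintro ⟨M, hM⟩
    obtain ⟨g, ⟨-, l, d, x, hxV, hxω⟩, hMg⟩ := hi.exists_gt M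
    have hxX : x ∈ X g := hVX g l d hxV
    have h5 : x ≤ M := hM ⟨hXJ g hxX, hxω⟩
    have h6 := hXge g x hxX
    omega
  · apply Set.infinite_of_not_bddAbove
    rintro ⟨M, hM⟩
    obtain ⟨x, hx, hx'⟩ := (e3 (M + 1)).2.1
    have hxω : x ∉ Bf i := by
      intro h
      exact lt_irrefl x (hx' x (hωg i (M + 1) x h ⟨x, hx, le_rfl⟩ ⟨x, hx, le_rfl⟩))
    have h5 : x ≤ M := hM ⟨hXJ (M + 1) hx, hxω⟩
    have h6 := hXge (M + 1) x hx
    omega

end Pool.Agent.H21.CT
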