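import Pool.Agent.H92.ST.Main
import Pool.Agent.H21.CT.Shat5

/-!
The main contradiction: `not_denseT` (`Pool/Agent/H92/ST/Main.lean`) for the gaps in `Gs`.
-/

namespace Pool.Agent.H21.CT

open Filter Pool.Agent.H92.BH Pool.Agent.H92.ST Pool.Agent.H74.BT

/-- the set of the entries of `z` belongs to a family of finite sets, all exact patterns on which, with
nothing else in the gaps of `z` with numbers in `Gs`, occur infinitely often for the primes of colour `i`, and
each of which has extensions by a set of positive upper density -/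
def FamG (Gs : Set ℕ) {r m : ℕ} (c : ℕ → Fin r) (z : Fin m → ℕ) : Prop :=
  ∃ (i : Fin r) (𝓕 : Set (Finset ℕ)), Finset.univ.image z ∈ 𝓕 ∧
    ∀ F ∈ 𝓕, ShE c i (gapG Gs z) F ∧ UD {y | insert y F ∈ 𝓕}

/-- bad tuples -/
def badG (Gs : Set ℕ) {r : ℕ} (c : ℕ → Fin r) (k : ℕ) : Set (Fin (k + 1) → ℤ) :=
  {z | StrictMono z ∧ ¬ FamG Gs c (fun a => (z a - z 0).toNat)}

theorem badG_translate (Gs : Set ℕ) {r : ℕ} (c : ℕ → Fin r) (k : ℕ) :
    ∀ z ∈ badG Gs c k, ∀ t : ℤ, (fun i => z i + t) ∈ badG Gs c k := by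
  rintro z ⟨h1, h2⟩ t
  refine ⟨fun i j hij => by simpa using h1 hij, ?_⟩
  have h3 : (fun a => ((fun i => z i + t) a - (fun i => z i + t) 0).toNat) =
      fun a => (z a - z 0).toNat := by
    funext a
    simp
  rw [h3]
  exact h2

/-- the main contradiction -/
theorem not_denseG {Gs : Set ℕ} {r : ℕ} (c : ℕ → Fin r) (k : ℕ) (hk : 1 ≤ k) {j : Fin (k + 1)}
    (hG : Iso1 Gs j)
    (hD : ∀ (J : ℕ) (α : Fin J → ℝ) (ρ : ℝ), 0 < ρ → UBDm (badG Gs c k ∩ near (k + 1) α ρ)) :
    False := by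
  classical
  obtain ⟨H, hinc, hadm, htree, hinv⟩ := blocksT (m := k + 1) (by omega) (badG_translate Gs c k)
    (fun z hz => hz.1) hD
    (fun (q : Fin r × (Fin (k + 1) → ℕ)) (F : Finset ℕ) => ShE c q.1 (gapG Gs q.2) F)
    (fun G => (Finset.univ : Finset (Fin r)) ×ˢ Fintype.piFinset (fun _ => G))
  obtain ⟨i, B, hBinf, hBH, j₀, z, hz, hRz, hsh⟩ := shatter5 hk hG c H hinc hadm
    (fun z : Fin (k + 1) → ℕ => (fun a => (z a : ℤ)) ∈ badG Gs c k)
    (fun n => ⟨n, le_rfl, H n, subset_rfl, Set.subset_univ _, htree n⟩)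
  -- every finite subset is in every stage
  have hst : ∀ α : Ordinal.{0}, ∀ F : Finset ℕ, ↑F ⊆ B → Sg (ShE c i (gapG Gs z)) α F := by
    intro α
    induction α using WellFoundedLT.induction with
    | _ α ih =>
      intro F hF
      by_contra hnot
      have hj : ∀ x ∈ F, ∃ j, x ∈ H j := fun x hx => hBH x (hF (Finset.mem_coe.mpr hx))
      choose! jf hjf using hj
      obtain ⟨y, hyB, hy⟩ : ∃ y ∈ B, y ∉ (Finset.range (F.sup jf + j₀ + 1)).biUnion H := by
        by_contra hcon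
        push Not at hcon
        exact hBinf ((Finset.finite_toSet _).subset hcon)
      obtain ⟨j, hyj⟩ := hBH y hyB
      have hjgt : F.sup jf + j₀ < j := by
        by_contra hle
        exact hy (Finset.mem_biUnion.mpr ⟨j, Finset.mem_range.mpr (by omega), hyj⟩)
      have h1 : ∀ x ∈ F, ∃ i' < j, x ∈ H i' := fun x hx =>
        ⟨jf x, by
          have := Finset.le_sup (f := jf) hx
          omega, hjf x hx⟩
      have hj₀ : ∀ u ∈ H j₀, u ∈ (Finset.range j).biUnion H := fun u hu =>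
        Finset.mem_biUnion.mpr ⟨j₀, Finset.mem_range.mpr (by omega), hu⟩
      obtain ⟨β, hβ, hβ2⟩ := hinv j (i, z)
        (Finset.mem_product.mpr ⟨Finset.mem_univ _, Fintype.mem_piFinset.mpr
          (fun a => hj₀ _ (hz a).1)⟩)
        F h1 (hsh F hF) α hnot y hyj
      refine hβ2 (ih β hβ (insert y F) ?_)
      intro a ha
      rcases Finset.mem_insert.mp (Finset.mem_coe.mp ha) with rfl | ha
      · exact hyB
      · exact hF (Finset.mem_coe.mpr ha)
  -- the contradiction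
  obtain ⟨hmono, hbad⟩ := hRz
  have hle : ∀ a, z 0 ≤ z a := by
    intro a
    have h1 := hmono.monotone (Fin.zero_le a)
    exact_mod_cast h1
  refine hbad ?_
  set zz : Fin (k + 1) → ℕ := fun a => ((z a : ℤ) - (z 0 : ℤ)).toNat with hzz
  have hzza : ∀ a, zz a + z 0 = z a := by
    intro a
    have h1 := hle a
    simp only [hzz]
    omega
  refine ⟨i, fam_of_Sg (ShE c i (gapG Gs zz)) (Finset.univ.image zz) (fun α => ?_)⟩
  refine Sg_shift (ShE c i (gapG Gs zz)) (ShE c i (gapG Gs z)) (z 0) (fun F hF => ?_) α _ ?_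
  · refine ShE_shift c i (z 0) (gapG Gs zz) (gapG Gs z) ?_ F hF
    rintro x ⟨a, b, h1, h2, h3, h4⟩
    refine ⟨a, b, h1, h2, ?_, ?_⟩
    · rw [← hzza a]
      exact Nat.add_lt_add_right h3 _
    · rw [← hzza b]
      exact Nat.add_lt_add_right h4 _
  refine hst α _ ?_
  intro x hx
  obtain ⟨y, hy, rfl⟩ := Finset.mem_image.mp (Finset.mem_coe.mp hx)
  obtain ⟨a, _, rfl⟩ := Finset.mem_image.mp hy
  rw [hzza a]
  exact (hz a).2

end Pool.Agent.H21.CT
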