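import Pool.Agent.H21.CT.Defs

/-!
[H21 CT NODE]  The choice of the tuple at one node.

Proof (as the last part of `extract`, `Pool/Agent/H92/ST/Ext.lean`).  For `a ≠ j` with `(a : ℕ) ∈ G` (the gap after `a` must be
empty) let `z a` be the maximum of `{x ∈ Y a | x ∈ ω}` if `a ∈ τ`, and the upper bound element of `Y a` otherwise (larger than all
elements of `C a`, not in `ω` by `Hull`); for `a ≠ j` with `(a : ℕ) ∉ G` let `z a` be the minimum, resp. the lower bound element.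
For `a = j` let `z j` be the only element of `ω` in `C j` if `j ∈ τ`, and any element of `Y j` otherwise (the lower bound element).
An element `x ∈ ω` with `z a < x < z b`, `(a : ℕ) ∈ G`, `b = a + 1`, is in the hull of `X`, so in `C e` for some `e`, and `e = a` or
`e = b` by the order of the `Y`; `e = a ≠ j`: `x ≤ z a`; `e = b ≠ j`: `(b : ℕ) ∉ G` by `Iso1`, so `z b ≤ x`; `e = j`: `x = z j` or there is
no such `x`.
-/

namespace Pool.Agent.H21.CT

open Filter Pool.Agent.H92.BH Pool.Agent.H92.ST Pool.Agent.H21.CG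

theorem node_pick {m : ℕ} {G : Set ℕ} {j : Fin m} (hG : Iso1 G j) {R : (Fin m → ℕ) → Prop}
    {Y C : Fin m → Finset ℕ} (hYo : ∀ a b, a < b → ∀ x ∈ Y a, ∀ y ∈ Y b, x < y)
    (hYR : ∀ z : Fin m → ℕ, (∀ a, z a ∈ Y a) → R z) (hC : ∀ a, Bnd (Y a) (C a)) {X : Finset ℕ}
    (hYX : ∀ a, Y a ⊆ X) {ω : Set ℕ} (hω : Hull ω X (Finset.univ.biUnion C)) (τ : Set (Fin m))
    (hhit : ∀ a ∈ τ, ∃ x ∈ C a, x ∈ ω) (hj1 : j ∈ τ → Un ω (C j))
    (hj0 : j ∉ τ → ∀ x ∈ C j, x ∉ ω) : Rz R G X ω τ := by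
  classical
  have hCm : ∀ x, x ∈ Finset.univ.biUnion C ↔ ∃ a, x ∈ C a := by
    intro x
    simp
  -- elements of `ω` in the hull of a child lie in its cells
  have hωa : ∀ a, ∀ x ∈ ω, x ∈ Y a → x ∈ C a := by
    intro a x hx hxY
    obtain ⟨b, hb⟩ := (hCm x).1 (hω x hx ⟨x, hYX a hxY, le_rfl⟩ ⟨x, hYX a hxY, le_rfl⟩)
    have hxb : x ∈ Y b := (hC b).1 hb
    rcases lt_trichotomy a b with h | h | h
    · exact absurd (hYo a b h x hxY x hxb) (lt_irrefl x)
    · rw [h]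
      exact hb
    · exact absurd (hYo b a h x hxb x hxY) (lt_irrefl x)
  have hz : ∀ a : Fin m, ∃ z ∈ Y a, (z ∈ ω ↔ a ∈ τ) ∧
      ((a : ℕ) ∈ G → ∀ x ∈ Y a, x ∈ ω → x ≤ z) ∧
      (((a : ℕ) ∉ G ∨ a = j) → ∀ x ∈ Y a, x ∈ ω → z ≤ x) := by
    intro a
    by_cases haj : a = j
    · subst haj
      by_cases haτ : a ∈ τ
      · obtain ⟨x, hx, hxω, hu⟩ := hj1 haτ
        refine ⟨x, (hC a).1 hx, ⟨fun _ => haτ, fun _ => hxω⟩, fun _ y hy hyω => ?_,
          fun _ y hy hyω => ?_⟩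
        · exact (hu y (hωa a y hyω hy) hyω).le
        · exact (hu y (hωa a y hyω hy) hyω).ge
      · obtain ⟨x, hx, -⟩ := (hC a).2.1
        refine ⟨x, hx, ⟨fun h => absurd h (hj0 haτ x (hωa a x h hx)), fun h => absurd h haτ⟩,
          fun _ y hy hyω => absurd hyω (hj0 haτ y (hωa a y hyω hy)),
          fun _ y hy hyω => absurd hyω (hj0 haτ y (hωa a y hyω hy))⟩
    · by_cases haG : (a : ℕ) ∈ G
      · by_cases haτ : a ∈ τ
        · obtain ⟨x, hx, hxω⟩ := hhit a haτ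
          have hne : ((Y a).filter (fun x => x ∈ ω)).Nonempty :=
            ⟨x, Finset.mem_filter.mpr ⟨(hC a).1 hx, hxω⟩⟩
          have h7 := Finset.max'_mem _ hne
          rw [Finset.mem_filter] at h7
          refine ⟨_, h7.1, ⟨fun _ => haτ, fun _ => h7.2⟩, fun _ x hx hxω =>
            Finset.le_max' _ x (Finset.mem_filter.mpr ⟨hx, hxω⟩), fun h => ?_⟩
          rcases h with h | h
          · exact absurd haG h
          · exact absurd h haj
        · obtain ⟨x, hx, hx'⟩ := (hC a).2.2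
          refine ⟨x, hx, ⟨fun hxω => absurd (hx' x (hωa a x hxω hx)) (lt_irrefl x),
            fun h => absurd h haτ⟩, fun _ y hy hyω => (hx' y (hωa a y hyω hy)).le, fun h => ?_⟩
          rcases h with h | h
          · exact absurd haG h
          · exact absurd h haj
      · by_cases haτ : a ∈ τ
        · obtain ⟨x, hx, hxω⟩ := hhit a haτ
          have hne : ((Y a).filter (fun x => x ∈ ω)).Nonempty :=
            ⟨x, Finset.mem_filter.mpr ⟨(hC a).1 hx, hxω⟩⟩
          have h7 := Finset.min'_mem _ hne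
          rw [Finset.mem_filter] at h7
          exact ⟨_, h7.1, ⟨fun _ => haτ, fun _ => h7.2⟩, fun h => absurd h haG, fun _ x hx hxω =>
            Finset.min'_le _ x (Finset.mem_filter.mpr ⟨hx, hxω⟩)⟩
        · obtain ⟨x, hx, hx'⟩ := (hC a).2.1
          exact ⟨x, hx, ⟨fun hxω => absurd (hx' x (hωa a x hxω hx)) (lt_irrefl x),
            fun h => absurd h haτ⟩, fun h => absurd h haG,
            fun _ y hy hyω => (hx' y (hωa a y hyω hy)).le⟩
  choose z hz1 hz2 hz3 hz4 using hz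
  refine ⟨z, fun a => hYX a (hz1 a), hYR z hz1, hz2, ?_⟩
  rintro x ⟨a, b, haG, hab, hax, hxb⟩ hxω
  obtain ⟨e, he⟩ := (hCm x).1 (hω x hxω ⟨z a, hYX a (hz1 a), hax.le⟩ ⟨z b, hYX b (hz1 b), hxb.le⟩)
  have hxe : x ∈ Y e := (hC e).1 he
  have h7 : ¬ e < a := fun h => absurd (hYo e a h x hxe (z a) (hz1 a)) (not_lt.mpr hax.le)
  have h8 : ¬ b < e := fun h => absurd (hYo b e h (z b) (hz1 b) x hxe) (not_lt.mpr hxb.le)
  rw [Fin.lt_def] at h7 h8
  have h9 : (e : ℕ) = a ∨ (e : ℕ) = b := by omega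
  rcases h9 with h9 | h9
  · have h10 : e = a := Fin.ext h9
    subst h10
    exact absurd (hz3 e haG x hxe hxω) (not_le.mpr hax)
  · have h10 : e = b := Fin.ext h9
    subst h10
    refine absurd (hz4 e ?_ x hxe hxω) (not_le.mpr hxb)
    by_cases hej : e = j
    · exact Or.inr hej
    · exact Or.inl (hG e hej a hab.symm haG)

end Pool.Agent.H21.CT
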