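import Pool.Agent.H21.CT.Final5
import Pool.Agent.H21.CG.Gap

/-!
Pairs of consecutive gaps.
-/

namespace Pool.Agent.H21.CT

open Filter Pool.Agent.H92.BH Pool.Agent.H92.ST Pool.Agent.H74.BT Pool.Agent.H21.CG

theorem pair_of_ext (c : ℕ → Fin 1) (u v : ℕ) (hu : 0 < u) (hv : 0 < v)
    (h : ExtG {0, 1} c {0, (u : ℤ), (u : ℤ) + v}) :
    {n : ℕ | gap n = u ∧ gap (n + 1) = v}.Infinite := by
  classical
  obtain ⟨i, 𝓕, hA, hF⟩ := h
  have hex := (hF _ hA).2.1 _ subset_rfl
  have hci : ∀ n, c n = i := fun n => Subsingleton.elim _ _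
  refine Set.infinite_of_forall_exists_gt fun M => ?_
  obtain ⟨N, hN, hNM⟩ := hex.exists_gt (Nat.nth Nat.Prime M)
  have hpr : ∀ b : ℤ, b ∈ ({0, (u : ℤ), (u : ℤ) + v} : Finset ℤ) → ((N : ℤ) + b).toNat.Prime := by
    intro b hb
    exact ((hN b (Or.inl hb)).2 hb).1
  have h0 : Nat.Prime N := by
    have := hpr 0 (by simp)
    simpa using this
  have h1 : Nat.Prime (N + u) := by
    have := hpr u (by simp)
    have e : ((N : ℤ) + u).toNat = N + u := by omega
    rwa [e] at this
  have h2 : Nat.Prime (N + u + v) := by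
    have := hpr (u + v) (by simp)
    have e : ((N : ℤ) + (u + v)).toNat = N + u + v := by omega
    rwa [e] at this
  have hno : ∀ b : ℕ, 0 < b → b < u + v → b ≠ u → ¬ (N + b).Prime := by
    intro b hb0 hbv hbu hp
    have hbA : (b : ℤ) ∉ ({0, (u : ℤ), (u : ℤ) + v} : Finset ℤ) := by
      simp only [Finset.mem_insert, Finset.mem_singleton, not_or]
      omega
    have hgap : InGapG {0, 1} {0, (u : ℤ), (u : ℤ) + v} b := by
      refine ⟨hbA, ?_, (u : ℤ) + v, by simp, by exact_mod_cast hbv⟩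
      rcases lt_or_gt_of_ne hbu with hlt | hgt
      · refine ⟨0, by simp, ?_⟩
        have : ({0, (u : ℤ), (u : ℤ) + v} : Finset ℤ).filter (fun x => x < (b : ℤ)) = {0} := by
          ext x
          simp only [Finset.mem_filter, Finset.mem_insert, Finset.mem_singleton]
          constructor
          · rintro ⟨rfl | rfl | rfl, hx⟩
            · rfl
            · omega
            · omega
          · rintro rfl
            exact ⟨Or.inl rfl, by exact_mod_cast hb0⟩
        rw [this]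
        simp
      · refine ⟨1, by simp, ?_⟩
        have : ({0, (u : ℤ), (u : ℤ) + v} : Finset ℤ).filter (fun x => x < (b : ℤ)) =
            {0, (u : ℤ)} := by
          ext x
          simp only [Finset.mem_filter, Finset.mem_insert, Finset.mem_singleton]
          constructor
          · rintro ⟨rfl | rfl | rfl, hx⟩
            · exact Or.inl rfl
            · exact Or.inr rfl
            · omega
          · rintro (rfl | rfl)
            · exact ⟨Or.inl rfl, by exact_mod_cast hb0⟩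
            · exact ⟨Or.inr (Or.inl rfl), by exact_mod_cast hgt⟩
        rw [this, Finset.card_pair]
        omega
    refine hbA ((hN b (Or.inr hgap)).1 ⟨?_, hci _⟩)
    have e : ((N : ℤ) + b).toNat = N + b := by omega
    rw [e]
    exact hp
  have hn0 : Nat.nth Nat.Prime (Nat.count Nat.Prime N) = N := Nat.nth_count h0
  set n := Nat.count Nat.Prime N with hn
  have hn1 : Nat.nth Nat.Prime (n + 1) = N + u := by
    refine gap_next hn0 h1 (by omega) ?_
    intro r hr1 hr2 hr
    refine hno (r - N) (by omega) (by omega) (by omega) ?_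
    rwa [Nat.add_sub_cancel' hr1.le]
  have hn2 : Nat.nth Nat.Prime (n + 1 + 1) = N + u + v := by
    refine gap_next hn1 h2 (by omega) ?_
    intro r hr1 hr2 hr
    refine hno (r - N) (by omega) (by omega) (by omega) ?_
    rwa [Nat.add_sub_cancel' (by omega)]
  refine ⟨n, ⟨?_, ?_⟩, ?_⟩
  · unfold gap
    rw [hn1, hn0]
    omega
  · unfold gap
    rw [hn2, hn1]
    omega
  · rw [← Nat.nth_lt_nth Nat.infinite_setOfPred_prime, hn0]
    exact hNM

open Classical in
theorem pairs5 : ∃ (J : ℕ) (α : Fin J → ℝ) (ρ : ℝ), 0 < ρ ∧ ∀ ε : ℝ, 0 < ε → ∃ X₀ : ℕ,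
    ∀ X : ℕ, X₀ ≤ X → ∀ M M' : ℕ, (((Finset.Ioc M (M + X) ×ˢ Finset.Ioc M' (M' + X)).filter
      (fun p : ℕ × ℕ => (p.1 : ℤ) ∈ Boh α ρ ∧ (p.2 : ℤ) ∈ Boh α ρ ∧
        ¬ {n : ℕ | gap n = p.1 ∧ gap (n + 1) = p.2}.Infinite)).card : ℝ) ≤ ε * (X : ℝ) ^ 2 := by
  obtain ⟨J, α, ρ, hρ, H⟩ := bohr_all (r := 1) (fun _ => 0) 2 (by norm_num)
  refine ⟨J, α, ρ / 2, by positivity, fun ε hε => ?_⟩
  obtain ⟨X₀, hX₀⟩ := H (ε / 4) (by positivity)
  refine ⟨X₀, fun X hX M M' => ?_⟩
  have h1 := hX₀ (2 * X) (by omega) ![(M : ℤ), (M : ℤ) + M']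
  have h2 : ε / 4 * ((2 * X : ℕ) : ℝ) ^ 2 = ε * (X : ℝ) ^ 2 := by
    push_cast
    ring
  rw [h2] at h1
  refine le_trans ?_ h1
  refine Nat.cast_le.2 (Finset.card_le_card_of_injOn
    (fun p : ℕ × ℕ => ![(p.1 : ℤ), (p.1 : ℤ) + p.2]) ?_ ?_)
  · rintro ⟨u, v⟩ hp
    rw [Finset.mem_coe, Finset.mem_filter, Finset.mem_product, Finset.mem_Ioc, Finset.mem_Ioc] at hp
    obtain ⟨⟨⟨hu1, hu2⟩, ⟨hv1, hv2⟩⟩, hu3, hv3, hbad⟩ := hp
    simp only at hu1 hu2 hv1 hv2 hu3 hv3 hbad
    rw [Finset.mem_coe, Finset.mem_filter]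
    refine ⟨?_, ?_, {0, 1}, ?_, ?_⟩
    · rw [cube, Fintype.mem_piFinset]
      intro i
      fin_cases i
      · show (u : ℤ) ∈ Finset.Ioc (M : ℤ) (M + ((2 * X : ℕ) : ℤ))
        rw [Finset.mem_Ioc]
        push_cast
        omega
      · show (u : ℤ) + v ∈ Finset.Ioc ((M : ℤ) + M') ((M : ℤ) + M' + ((2 * X : ℕ) : ℤ))
        rw [Finset.mem_Ioc]
        push_cast
        omega
    · have hu4 : (u : ℤ) ∈ Boh α ρ := by
        intro i
        obtain ⟨m, hm⟩ := hu3 i
        exact ⟨m, by linarith⟩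
      intro i
      fin_cases i
      · exact hu4
      · exact bohN_add hu3 hv3
    · intro s hs t ht hs1 ht1
      simp only [Set.mem_insert_iff, Set.mem_singleton_iff] at hs hs1 ht ht1
      omega
    · intro hext
      refine hbad (pair_of_ext (fun _ => 0) u v (by omega) (by omega) ?_)
      have e : (insert 0 (Finset.univ.image (![(u : ℤ), (u : ℤ) + v] : Fin 2 → ℤ)) : Finset ℤ) =
          {0, (u : ℤ), (u : ℤ) + v} := by
        ext x
        simp only [Finset.mem_insert, Finset.mem_image, Finset.mem_univ, true_and,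
          Finset.mem_singleton, Fin.exists_fin_two, Matrix.cons_val_zero, Matrix.cons_val_one,
          Matrix.cons_val_fin_one]
        constructor
        · rintro (h | h | h)
          · exact Or.inl h
          · exact Or.inr (Or.inl h.symm)
          · exact Or.inr (Or.inr h.symm)
        · rintro (h | h | h)
          · exact Or.inl h
          · exact Or.inr (Or.inl h.symm)
          · exact Or.inr (Or.inr h.symm)
      rw [← e]
      exact hext
  · rintro ⟨u, v⟩ _ ⟨u', v'⟩ _ h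
    have h3 : (u : ℤ) = u' := congrFun h 0
    have h4 : (u : ℤ) + v = u' + v' := congrFun h 1
    have h5 : u = u' := by exact_mod_cast h3
    have h6 : v = v' := by omega
    rw [h5, h6]

end Pool.Agent.H21.CT
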